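import Pool.Agent.Zk79.LN.Base

/-!
# The asymptotic expansion of the coefficients for two nodes
-/

set_option autoImplicit false
set_option linter.unusedVariables false

namespace Pool.Agent.Zk52.LN

open Finset Filter Topology Pool.Agent.Zk79.LN

/-- powers times exponentials are bounded -/
lemma pow_exp_bdd (K : ℕ) {σ : ℝ} (h0 : 0 ≤ σ) (h1 : σ < 1) :
    ∃ C : ℝ, 0 ≤ C ∧ ∀ m : ℕ, (m : ℝ) ^ K * σ ^ m ≤ C := by
  have h := tendsto_pow_const_mul_const_pow_of_abs_lt_one K (r := σ) (by rwa [abs_of_nonneg h0])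
  obtain ⟨C, hC⟩ := h.bddAbove_range
  refine ⟨max C 0, le_max_right _ _, fun m => le_trans (hC ⟨m, rfl⟩) (le_max_left _ _)⟩

/-- the terms of the sums -/
noncomputable def W (ν h : ℝ) (k j : ℕ) : ℝ :=
  (j.choose k : ℝ) * h ^ (j - k) * ν ^ (2 * k) * ∏ t ∈ range k, (2 * ((j : ℝ) - t) + 1)

lemma W_zero {ν h : ℝ} {k j : ℕ} (hj : j < k) : W ν h k j = 0 := by
  unfold W
  rw [Nat.choose_eq_zero_of_lt hj]
  simp

lemma prod_nonneg' {k j : ℕ} (hj : k ≤ j) : 0 ≤ ∏ t ∈ range k, (2 * ((j : ℝ) - t) + 1) := by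
  refine Finset.prod_nonneg fun t ht => ?_
  have h1 : (t : ℝ) ≤ j := by
    have := mem_range.1 ht
    exact_mod_cast (by omega : t ≤ j)
  linarith

lemma W_nonneg {ν h : ℝ} (hh : 0 ≤ h) (k j : ℕ) : 0 ≤ W ν h k j := by
  rcases lt_or_ge j k with hj | hj
  · rw [W_zero hj]
  · unfold W
    have := prod_nonneg' hj
    have h2 : 0 ≤ ν ^ (2 * k) := by rw [pow_mul]; positivity
    positivity

lemma W_bound (ν : ℝ) {h : ℝ} (h0 : 0 < h) (h1 : h < 1) (k : ℕ) :
    ∃ C ρ : ℝ, 0 ≤ C ∧ 0 < ρ ∧ ρ < 1 ∧ ∀ j, W ν h k j ≤ C * ρ ^ j := by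
  obtain ⟨ρ, hρ0, hρ1⟩ := exists_between h1
  have hρpos : 0 < ρ := h0.trans hρ0
  obtain ⟨C, hC0, hC⟩ := pow_exp_bdd (2 * k) (σ := h / ρ) (by positivity)
    ((div_lt_one hρpos).2 hρ0)
  refine ⟨3 ^ (2 * k) * (C + 1) * (h⁻¹) ^ k * ν ^ (2 * k), ρ, ?_, hρpos, hρ1, fun j => ?_⟩
  · have h2 : 0 ≤ ν ^ (2 * k) := by rw [pow_mul]; positivity
    positivity
  rcases lt_or_ge j k with hj | hj
  · rw [W_zero hj]
    have h2 : 0 ≤ ν ^ (2 * k) := by rw [pow_mul]; positivity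
    positivity
  unfold W
  have h2 : 0 ≤ ν ^ (2 * k) := by rw [pow_mul]; positivity
  have h3 : (j.choose k : ℝ) ≤ (2 * j + 1) ^ k := by
    have : (j.choose k : ℝ) ≤ (j : ℝ) ^ k := by exact_mod_cast Nat.choose_le_pow j k
    refine this.trans (pow_le_pow_left₀ (by positivity) (by linarith [(Nat.cast_nonneg j : (0:ℝ) ≤ j)]) _)
  have h4 : ∏ t ∈ range k, (2 * ((j : ℝ) - t) + 1) ≤ (2 * j + 1) ^ k := by
    calc ∏ t ∈ range k, (2 * ((j : ℝ) - t) + 1) ≤ ∏ _t ∈ range k, (2 * (j : ℝ) + 1) := by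
          refine Finset.prod_le_prod (fun t ht => ?_) fun t ht => ?_
          · have h1 : (t : ℝ) ≤ j := by
              have := mem_range.1 ht
              exact_mod_cast (by omega : t ≤ j)
            linarith
          · linarith [(Nat.cast_nonneg t : (0:ℝ) ≤ t)]
      _ = (2 * j + 1) ^ k := by rw [prod_const, card_range]
  have h5 : h ^ (j - k) = h ^ j * (h⁻¹) ^ k := by
    rw [inv_pow, pow_sub₀ h h0.ne' hj]
  have h6 : h ^ j = (h / ρ) ^ j * ρ ^ j := by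
    rw [div_pow, div_mul_cancel₀ _ (pow_ne_zero _ hρpos.ne')]
  have h7 : (2 * (j : ℝ) + 1) ^ (2 * k) * (h / ρ) ^ j ≤ 3 ^ (2 * k) * (C + 1) := by
    rcases Nat.eq_zero_or_pos j with rfl | hj0
    · have : (1 : ℝ) ≤ 3 ^ (2 * k) := one_le_pow₀ (by norm_num)
      simp only [Nat.cast_zero, mul_zero, zero_add, one_pow, pow_zero, mul_one]
      nlinarith
    · have h8 : (2 * (j : ℝ) + 1) ^ (2 * k) ≤ (3 * j) ^ (2 * k) := by
        refine pow_le_pow_left₀ (by positivity) ?_ _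
        have : (1 : ℝ) ≤ j := by exact_mod_cast hj0
        linarith
      calc (2 * (j : ℝ) + 1) ^ (2 * k) * (h / ρ) ^ j ≤ (3 * j) ^ (2 * k) * (h / ρ) ^ j := by
            gcongr
        _ = 3 ^ (2 * k) * ((j : ℝ) ^ (2 * k) * (h / ρ) ^ j) := by rw [mul_pow]; ring
        _ ≤ 3 ^ (2 * k) * (C + 1) := by
            gcongr
            linarith [hC j]
  have h9 := prod_nonneg' hj
  calc (j.choose k : ℝ) * h ^ (j - k) * ν ^ (2 * k) * ∏ t ∈ range k, (2 * ((j : ℝ) - t) + 1)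
      ≤ (2 * j + 1) ^ k * h ^ (j - k) * ν ^ (2 * k) * (2 * j + 1) ^ k := by gcongr
    _ = ((2 * (j : ℝ) + 1) ^ (2 * k) * (h / ρ) ^ j) * (h⁻¹) ^ k * ν ^ (2 * k) * ρ ^ j := by
        rw [h5, h6, two_mul k, pow_add]; ring
    _ ≤ 3 ^ (2 * k) * (C + 1) * (h⁻¹) ^ k * ν ^ (2 * k) * ρ ^ j := by gcongr

/-- sums against the sequence `g`, with exponentially small tails -/
lemma tail {g w : ℕ → ℝ} (hg0 : ∀ i, 0 ≤ g i)
    (hg : ∀ ρ : ℝ, 0 ≤ ρ → ρ < 1 → Summable fun j => g j * ρ ^ j) (hw0 : ∀ j, 0 ≤ w j)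
    {C ρ : ℝ} (hC : 0 ≤ C) (hρ0 : 0 < ρ) (hρ1 : ρ < 1) (hw : ∀ j, w j ≤ C * ρ ^ j) :
    (Summable fun j => g j * w j) ∧ ∃ C' σ : ℝ, 0 ≤ C' ∧ 0 ≤ σ ∧ σ < 1 ∧
      ∀ N, ∑' j, g (j + N) * w (j + N) ≤ C' * σ ^ N := by
  have hs : Summable fun j => g j * w j := by
    refine Summable.of_nonneg_of_le (fun j => mul_nonneg (hg0 j) (hw0 j)) (fun j => ?_)
      ((hg ρ hρ0.le hρ1).mul_left C)
    calc g j * w j ≤ g j * (C * ρ ^ j) := by gcongr; exacts [hg0 j, hw j]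
      _ = C * (g j * ρ ^ j) := by ring
  obtain ⟨ρ', h1, h2⟩ := exists_between hρ1
  have hρ'0 : 0 < ρ' := hρ0.trans h1
  have hs' := hg ρ' hρ'0.le h2
  refine ⟨hs, C * ∑' j, g j * ρ' ^ j, ρ / ρ', ?_, by positivity, (div_lt_one hρ'0).2 h1, fun N => ?_⟩
  · refine mul_nonneg hC (tsum_nonneg fun j => mul_nonneg (hg0 j) (by positivity))
  have hq0 : 0 ≤ ρ / ρ' := by positivity
  have hq1 : ρ / ρ' ≤ 1 := ((div_lt_one hρ'0).2 h1).le
  have hle : ∀ j, g (j + N) * w (j + N) ≤ C * (ρ / ρ') ^ N * (g (j + N) * ρ' ^ (j + N)) := by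
    intro j
    have e1 : ρ ^ (j + N) = (ρ / ρ') ^ (j + N) * ρ' ^ (j + N) := by
      rw [div_pow, div_mul_cancel₀ _ (pow_ne_zero _ hρ'0.ne')]
    have e2 : (ρ / ρ') ^ (j + N) ≤ (ρ / ρ') ^ N := pow_le_pow_of_le_one hq0 hq1 (by omega)
    calc g (j + N) * w (j + N) ≤ g (j + N) * (C * ρ ^ (j + N)) := by
          gcongr; exacts [hg0 _, hw _]
      _ = C * (ρ / ρ') ^ (j + N) * (g (j + N) * ρ' ^ (j + N)) := by rw [e1]; ring
      _ ≤ C * (ρ / ρ') ^ N * (g (j + N) * ρ' ^ (j + N)) := by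
          gcongr
          exact mul_nonneg (hg0 _) (by positivity)
  have hsN : Summable fun j => g (j + N) * ρ' ^ (j + N) := (summable_nat_add_iff N).2 hs'
  have hsN' : Summable fun j => g (j + N) * w (j + N) := (summable_nat_add_iff N).2 hs
  calc ∑' j, g (j + N) * w (j + N)
      ≤ ∑' j, C * (ρ / ρ') ^ N * (g (j + N) * ρ' ^ (j + N)) :=
        hsN'.tsum_le_tsum hle (hsN.mul_left _)
    _ = C * (ρ / ρ') ^ N * ∑' j, (g (j + N) * ρ' ^ (j + N)) := tsum_mul_left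
    _ ≤ C * (ρ / ρ') ^ N * ∑' j, g j * ρ' ^ j := by
        refine mul_le_mul_of_nonneg_left ?_ (by positivity)
        rw [← hs'.sum_add_tsum_nat_add N]
        have : 0 ≤ ∑ i ∈ range N, g i * ρ' ^ i :=
          Finset.sum_nonneg fun j _ => mul_nonneg (hg0 j) (by positivity)
        linarith
    _ = C * (∑' j, g j * ρ' ^ j) * (ρ / ρ') ^ N := by ring


lemma be_nonneg {k n : ℕ} (h : k ≤ n) : 0 ≤ be k n := by
  unfold be
  refine Finset.prod_nonneg fun t ht => ?_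
  have h1 : (t : ℝ) ≤ n := by
    have := mem_range.1 ht
    exact_mod_cast (by omega : t ≤ n)
  have : (0 : ℝ) ≤ 2 * ((n : ℝ) - t) + 1 := by linarith
  positivity

lemma be_le {k n : ℕ} (h : 2 * k ≤ n) (hn : 1 ≤ n) : be k n ≤ ((n : ℝ) ^ k)⁻¹ := by
  unfold be
  have hn' : (0 : ℝ) < n := by exact_mod_cast hn
  have e : ((n : ℝ) ^ k)⁻¹ = ∏ _t ∈ range k, (n : ℝ)⁻¹ := by
    rw [prod_const, card_range, inv_pow]
  rw [e]
  refine Finset.prod_le_prod (fun t ht => ?_) fun t ht => ?_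
  · have h1 : (t : ℝ) ≤ n := by
      have := mem_range.1 ht
      exact_mod_cast (by omega : t ≤ n)
    have : (0 : ℝ) ≤ 2 * ((n : ℝ) - t) + 1 := by linarith
    positivity
  · have h1 : (2 : ℝ) * t ≤ n := by
      have := mem_range.1 ht
      exact_mod_cast (by omega : 2 * t ≤ n)
    rw [one_div]
    exact inv_anti₀ hn' (by linarith)

lemma be_le_one {k n : ℕ} (h : 2 * k ≤ n) (hn : 1 ≤ n) : be k n ≤ 1 := by
  refine (be_le h hn).trans ?_
  have hn' : (1 : ℝ) ≤ n := by exact_mod_cast hn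
  exact inv_le_one_of_one_le₀ (one_le_pow₀ hn')

lemma mm_eq (μ ν : ℝ) (n j : ℕ) :
    mm μ ν n j = ∑ k ∈ range (j + 1), W ν (μ ^ 2) k j * be k n := by
  unfold mm W be
  refine Finset.sum_congr rfl fun k hk => ?_
  have e : ∏ t ∈ range k, ((2 * ((j : ℝ) - t) + 1) / (2 * ((n : ℝ) - t) + 1)) =
      (∏ t ∈ range k, (2 * ((j : ℝ) - t) + 1)) * ∏ t ∈ range k, (1 / (2 * ((n : ℝ) - t) + 1)) := by
    rw [← Finset.prod_mul_distrib]
    exact Finset.prod_congr rfl fun t _ => by rw [mul_one_div]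
  rw [e, ← pow_mul]
  ring

lemma mm_split (μ ν : ℝ) (K n j : ℕ) :
    mm μ ν n j = (∑ k ∈ range K, W ν (μ ^ 2) k j * be k n) +
      ∑ k ∈ Ico K (j + 1), W ν (μ ^ 2) k j * be k n := by
  rw [mm_eq]
  rcases le_or_gt K (j + 1) with h | h
  · rw [Finset.sum_range_add_sum_Ico _ h]
  · rw [Finset.Ico_eq_empty (by omega), Finset.sum_empty, add_zero,
      ← Finset.sum_range_add_sum_Ico _ h.le]
    have : ∑ k ∈ Ico (j + 1) K, W ν (μ ^ 2) k j * be k n = 0 := by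
      refine Finset.sum_eq_zero fun k hk => ?_
      rw [W_zero (by have := (Finset.mem_Ico.1 hk).1; omega), zero_mul]
    rw [this, add_zero]

lemma R_bound {μ ν : ℝ} {K n j : ℕ} (hn : 1 ≤ n) (hj : 2 * j ≤ n) :
    ∑ k ∈ Ico K (j + 1), W ν (μ ^ 2) k j * be k n ≤
      W ν (μ ^ 2 + 2 / 3 * ν ^ 2) K j * be K n := by
  rcases lt_or_ge j K with h | h
  · rw [Finset.Ico_eq_empty (by omega), Finset.sum_empty, W_zero h, zero_mul]
  rw [Finset.sum_Ico_eq_sum_range, show j + 1 - K = (j - K) + 1 by omega]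
  have hbin : (μ ^ 2 + 2 / 3 * ν ^ 2) ^ (j - K) =
      ∑ i ∈ range (j - K + 1), (2 / 3 * ν ^ 2) ^ i * (μ ^ 2) ^ (j - K - i) *
        ((j - K).choose i : ℝ) := by
    rw [add_comm, add_pow]
  have hP := prod_nonneg' h
  have hB : 0 ≤ be K n := be_nonneg (by omega)
  have hν2 : (0 : ℝ) ≤ ν ^ (2 * K) := by rw [pow_mul]; positivity
  calc ∑ i ∈ range (j - K + 1), W ν (μ ^ 2) (K + i) j * be (K + i) n
      ≤ ∑ i ∈ range (j - K + 1), ((j.choose K : ℝ) * ν ^ (2 * K) *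
          (∏ t ∈ range K, (2 * ((j : ℝ) - t) + 1)) * be K n) *
          ((2 / 3 * ν ^ 2) ^ i * (μ ^ 2) ^ (j - K - i) * ((j - K).choose i : ℝ)) := by
        refine Finset.sum_le_sum fun i hi => ?_
        have hi' : K + i ≤ j := by have := mem_range.1 hi; omega
        unfold W be
        rw [Finset.prod_range_add, Finset.prod_range_add]
        have hc : (j.choose (K + i) : ℝ) ≤ j.choose K * (j - K).choose i := by
          have h1 := Nat.choose_mul (n := j) (Nat.le_add_right K i)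
          rw [Nat.add_sub_cancel_left] at h1
          have h2 : 1 ≤ (K + i).choose K := Nat.choose_pos (Nat.le_add_right K i)
          have : j.choose (K + i) ≤ j.choose K * (j - K).choose i := by
            rw [← h1]; exact Nat.le_mul_of_pos_right _ h2
          exact_mod_cast this
        have hq : (∏ x ∈ range i, (2 * ((j : ℝ) - (K + x : ℕ)) + 1)) *
            (∏ x ∈ range i, (1 / (2 * ((n : ℝ) - (K + x : ℕ)) + 1))) ≤ (2 / 3) ^ i := by
          rw [← Finset.prod_mul_distrib]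
          calc ∏ x ∈ range i, ((2 * ((j : ℝ) - (K + x : ℕ)) + 1) *
                (1 / (2 * ((n : ℝ) - (K + x : ℕ)) + 1))) ≤ ∏ _x ∈ range i, (2 / 3 : ℝ) := by
                refine Finset.prod_le_prod (fun x hx => ?_) fun x hx => ?_
                · have h1 : ((K + x : ℕ) : ℝ) ≤ j := by
                    have := mem_range.1 hx
                    exact_mod_cast (by omega : K + x ≤ j)
                  have h2 : ((2 * j : ℕ) : ℝ) ≤ n := by exact_mod_cast hj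
                  push_cast at h1 h2 ⊢
                  have h3 : (0 : ℝ) ≤ j := Nat.cast_nonneg j
                  have h4 : (0 : ℝ) ≤ 2 * ((j : ℝ) - (K + x)) + 1 := by linarith
                  have h5 : (0 : ℝ) ≤ 2 * ((n : ℝ) - (K + x)) + 1 := by linarith
                  positivity
                · have h1 : ((K + x : ℕ) : ℝ) ≤ j := by
                    have := mem_range.1 hx
                    exact_mod_cast (by omega : K + x ≤ j)
                  have h2 : ((2 * j : ℕ) : ℝ) ≤ n := by exact_mod_cast hj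
                  have h2' : (1 : ℝ) ≤ n := by exact_mod_cast hn
                  have h6 : (0 : ℝ) ≤ ((K + x : ℕ) : ℝ) := Nat.cast_nonneg _
                  push_cast at h1 h2 h6 ⊢
                  have h3 : (0 : ℝ) ≤ j := Nat.cast_nonneg j
                  have h5 : (0 : ℝ) < 2 * ((n : ℝ) - (K + x)) + 1 := by linarith
                  rw [mul_one_div, div_le_iff₀ h5]
                  linarith
            _ = (2 / 3) ^ i := by rw [prod_const, card_range]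
        have hq0 : 0 ≤ (∏ x ∈ range i, (2 * ((j : ℝ) - (K + x : ℕ)) + 1)) *
            (∏ x ∈ range i, (1 / (2 * ((n : ℝ) - (K + x : ℕ)) + 1))) := by
          rw [← Finset.prod_mul_distrib]
          refine Finset.prod_nonneg fun x hx => ?_
          have h1 : ((K + x : ℕ) : ℝ) ≤ j := by
            have := mem_range.1 hx
            exact_mod_cast (by omega : K + x ≤ j)
          have h2 : ((2 * j : ℕ) : ℝ) ≤ n := by exact_mod_cast hj
          push_cast at h1 h2 ⊢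
          have h3 : (0 : ℝ) ≤ j := Nat.cast_nonneg j
          have h4 : (0 : ℝ) ≤ 2 * ((j : ℝ) - (K + x)) + 1 := by linarith
          have h5 : (0 : ℝ) ≤ 2 * ((n : ℝ) - (K + x)) + 1 := by linarith
          positivity
        have hB' : 0 ≤ ∏ t ∈ range K, (1 / (2 * ((n : ℝ) - t) + 1)) := hB
        have e1 : ν ^ (2 * (K + i)) = ν ^ (2 * K) * (ν ^ 2) ^ i := by
          rw [← pow_mul, ← pow_add]; congr 1; ring
        have e2 : j - (K + i) = j - K - i := by omega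
        rw [e1, e2]
        set P1 := ∏ t ∈ range K, (2 * ((j : ℝ) - t) + 1) with hP1
        set B1 := ∏ t ∈ range K, (1 / (2 * ((n : ℝ) - t) + 1)) with hB1
        set P2 := ∏ x ∈ range i, (2 * ((j : ℝ) - (K + x : ℕ)) + 1) with hP2
        set B2 := ∏ x ∈ range i, (1 / (2 * ((n : ℝ) - (K + x : ℕ)) + 1)) with hB2
        calc (j.choose (K + i) : ℝ) * (μ ^ 2) ^ (j - K - i) * (ν ^ (2 * K) * (ν ^ 2) ^ i) *
              (P1 * P2) * (B1 * B2)
            = ((j.choose (K + i) : ℝ) * ((μ ^ 2) ^ (j - K - i) * ν ^ (2 * K) * (ν ^ 2) ^ i * P1 * B1)) *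
              (P2 * B2) := by ring
          _ ≤ ((j.choose K * (j - K).choose i : ℝ) * ((μ ^ 2) ^ (j - K - i) * ν ^ (2 * K) *
                (ν ^ 2) ^ i * P1 * B1)) * (2 / 3) ^ i := by
              refine mul_le_mul (mul_le_mul_of_nonneg_right hc (by positivity)) hq hq0
                (by positivity)
          _ = _ := by rw [mul_pow]; ring
    _ = W ν (μ ^ 2 + 2 / 3 * ν ^ 2) K j * be K n := by
        rw [← Finset.mul_sum, ← hbin]
        unfold W
        ring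

lemma TT_eq (r : ℝ) {g : ℕ → ℝ} (μ ν : ℝ) (k : ℕ)
    (hs : Summable fun j => g j * W ν (μ ^ 2) k j) :
    TT r g μ ν k = r * ∑' j, g j * W ν (μ ^ 2) k j := by
  unfold TT
  congr 1
  rw [← hs.sum_add_tsum_nat_add k]
  have h0 : ∑ i ∈ range k, g i * W ν (μ ^ 2) k i = 0 := by
    refine Finset.sum_eq_zero fun i hi => ?_
    rw [W_zero (mem_range.1 hi), mul_zero]
  rw [h0, zero_add]
  refine tsum_congr fun j => ?_
  unfold W
  rw [Nat.add_sub_cancel, pow_mul]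
  push_cast
  ring

lemma E_bound {s g w : ℕ → ℝ} {r A θ : ℝ} (hA : 0 ≤ A) (hθ : 0 ≤ θ) (hθ1 : θ < 1)
    (hg0 : ∀ i, 0 ≤ g i) (hs : ∀ i, |s i - r| ≤ A * θ ^ i)
    (hg : ∀ ρ : ℝ, 0 ≤ ρ → ρ < 1 → Summable fun j => g j * ρ ^ j) (hw0 : ∀ j, 0 ≤ w j)
    (hw : ∃ C ρ : ℝ, 0 ≤ C ∧ 0 < ρ ∧ ρ < 1 ∧ ∀ j, w j ≤ C * ρ ^ j)
    (J : ℕ → ℕ) (hJ : ∀ n, n ≤ 3 * J n + 3) (hJ' : ∀ n, 2 * J n ≤ n) (K : ℕ) :
    ∃ B : ℝ, 0 ≤ B ∧ ∀ n : ℕ, (n : ℝ) ^ K *
      |(∑ j ∈ range (J n + 1), s (n - j) * (g j * w j)) - r * ∑' j, g j * w j| ≤ B := by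
  obtain ⟨C, ρ, hC, hρ0, hρ1, hw⟩ := hw
  obtain ⟨hsum, C', σ, hC', hσ, hσ1, hT⟩ := tail hg0 hg hw0 hC hρ0 hρ1 hw
  obtain ⟨C1, hC1, h1⟩ := pow_exp_bdd K hθ hθ1
  obtain ⟨C2, hC2, h2⟩ := pow_exp_bdd K hσ hσ1
  have hgw : ∀ j, 0 ≤ g j * w j := fun j => mul_nonneg (hg0 j) (hw0 j)
  set D := ∑' j, g j * w j with hD
  have hD0 : 0 ≤ D := tsum_nonneg hgw
  refine ⟨2 ^ K * C1 * (A * D) + 3 ^ K * C2 * (|r| * C'), by positivity, fun n => ?_⟩
  have hsplit : D = (∑ j ∈ range (J n + 1), g j * w j) +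
      ∑' j, g (j + (J n + 1)) * w (j + (J n + 1)) := (hsum.sum_add_tsum_nat_add (J n + 1)).symm
  have e : (∑ j ∈ range (J n + 1), s (n - j) * (g j * w j)) - r * D =
      (∑ j ∈ range (J n + 1), (s (n - j) - r) * (g j * w j)) -
        r * ∑' j, g (j + (J n + 1)) * w (j + (J n + 1)) := by
    rw [hsplit, mul_add, Finset.mul_sum]
    simp_rw [sub_mul]
    rw [Finset.sum_sub_distrib]
    ring
  have b1 : |∑ j ∈ range (J n + 1), (s (n - j) - r) * (g j * w j)| ≤ A * θ ^ (n - J n) * D := by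
    calc |∑ j ∈ range (J n + 1), (s (n - j) - r) * (g j * w j)|
        ≤ ∑ j ∈ range (J n + 1), |(s (n - j) - r) * (g j * w j)| := Finset.abs_sum_le_sum_abs _ _
      _ ≤ ∑ j ∈ range (J n + 1), A * θ ^ (n - J n) * (g j * w j) := by
          refine Finset.sum_le_sum fun j hj => ?_
          rw [abs_mul, abs_of_nonneg (hgw j)]
          refine mul_le_mul_of_nonneg_right ((hs _).trans ?_) (hgw j)
          refine mul_le_mul_of_nonneg_left ?_ hA
          have := mem_range.1 hj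
          exact pow_le_pow_of_le_one hθ hθ1.le (by omega)
      _ = A * θ ^ (n - J n) * ∑ j ∈ range (J n + 1), (g j * w j) := by rw [Finset.mul_sum]
      _ ≤ A * θ ^ (n - J n) * D := by
          refine mul_le_mul_of_nonneg_left ?_ (by positivity)
          exact hsum.sum_le_tsum _ fun j _ => hgw j
  have b2 : |r * ∑' j, g (j + (J n + 1)) * w (j + (J n + 1))| ≤ |r| * (C' * σ ^ (J n + 1)) := by
    rw [abs_mul, abs_of_nonneg (tsum_nonneg fun j => hgw _)]
    exact mul_le_mul_of_nonneg_left (hT _) (abs_nonneg r)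
  have p1 : (n : ℝ) ^ K * θ ^ (n - J n) ≤ 2 ^ K * C1 := by
    have hn : (n : ℝ) ≤ 2 * ((n - J n : ℕ) : ℝ) := by
      have := hJ' n
      exact_mod_cast (by omega : n ≤ 2 * (n - J n))
    calc (n : ℝ) ^ K * θ ^ (n - J n) ≤ (2 * ((n - J n : ℕ) : ℝ)) ^ K * θ ^ (n - J n) := by gcongr
      _ = 2 ^ K * (((n - J n : ℕ) : ℝ) ^ K * θ ^ (n - J n)) := by rw [mul_pow]; ring
      _ ≤ 2 ^ K * C1 := mul_le_mul_of_nonneg_left (h1 _) (by positivity)
  have p2 : (n : ℝ) ^ K * σ ^ (J n + 1) ≤ 3 ^ K * C2 := by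
    have hn : (n : ℝ) ≤ 3 * ((J n + 1 : ℕ) : ℝ) := by
      have := hJ n
      exact_mod_cast (by omega : n ≤ 3 * (J n + 1))
    calc (n : ℝ) ^ K * σ ^ (J n + 1) ≤ (3 * ((J n + 1 : ℕ) : ℝ)) ^ K * σ ^ (J n + 1) := by gcongr
      _ = 3 ^ K * (((J n + 1 : ℕ) : ℝ) ^ K * σ ^ (J n + 1)) := by rw [mul_pow]; ring
      _ ≤ 3 ^ K * C2 := mul_le_mul_of_nonneg_left (h2 _) (by positivity)
  rw [e]
  calc (n : ℝ) ^ K * |(∑ j ∈ range (J n + 1), (s (n - j) - r) * (g j * w j)) -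
        r * ∑' j, g (j + (J n + 1)) * w (j + (J n + 1))|
      ≤ (n : ℝ) ^ K * (A * θ ^ (n - J n) * D + |r| * (C' * σ ^ (J n + 1))) := by
        refine mul_le_mul_of_nonneg_left ((abs_sub _ _).trans (add_le_add b1 b2)) (by positivity)
    _ = ((n : ℝ) ^ K * θ ^ (n - J n)) * (A * D) + ((n : ℝ) ^ K * σ ^ (J n + 1)) * (|r| * C') := by
        ring
    _ ≤ 2 ^ K * C1 * (A * D) + 3 ^ K * C2 * (|r| * C') := by
        gcongr

/-- M3 -/
theorem expansion {s g : ℕ → ℝ} {r A θ μ ν : ℝ} (hA : 0 ≤ A) (hθ : 0 ≤ θ) (hθ1 : θ < 1)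
    (hs0 : ∀ i, 0 ≤ s i) (hg0 : ∀ i, 0 ≤ g i)
    (hs : ∀ i, |s i - r| ≤ A * θ ^ i) (hg : ∀ ρ : ℝ, 0 ≤ ρ → ρ < 1 → Summable fun j => g j * ρ ^ j)
    (hμ : 0 < μ) (hν : 0 < ν) (h : μ ^ 2 + 2 / 3 * ν ^ 2 < 1)
    (J : ℕ → ℕ) (hJ : ∀ n, n ≤ 3 * J n + 3) (hJ' : ∀ n, 2 * J n ≤ n) (K : ℕ) :
    (fun n : ℕ => (∑ j ∈ range (J n + 1), s (n - j) * g j * mm μ ν n j) -
        ∑ k ∈ range K, TT r g μ ν k * be k n) =O[atTop] fun n : ℕ => ((n : ℝ) ^ K)⁻¹ := by
  have hμ2 : 0 < μ ^ 2 := by positivity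
  have hμ21 : μ ^ 2 < 1 := by nlinarith [sq_nonneg ν]
  have hh0 : 0 < μ ^ 2 + 2 / 3 * ν ^ 2 := by positivity
  have hE : ∀ k, ∃ B : ℝ, 0 ≤ B ∧ ∀ n : ℕ, (n : ℝ) ^ K *
      |(∑ j ∈ range (J n + 1), s (n - j) * (g j * W ν (μ ^ 2) k j)) -
        r * ∑' j, g j * W ν (μ ^ 2) k j| ≤ B := fun k =>
    E_bound hA hθ hθ1 hg0 hs hg (fun j => W_nonneg hμ2.le k j) (W_bound ν hμ2 hμ21 k) J hJ hJ' K
  choose B hB0 hB using hE
  have hsum : ∀ k, Summable fun j => g j * W ν (μ ^ 2) k j := by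
    intro k
    obtain ⟨C, ρ, hC, hρ0, hρ1, hw⟩ := W_bound ν hμ2 hμ21 k
    exact (tail hg0 hg (fun j => W_nonneg hμ2.le k j) hC hρ0 hρ1 hw).1
  have hsumh : Summable fun j => g j * W ν (μ ^ 2 + 2 / 3 * ν ^ 2) K j := by
    obtain ⟨C, ρ, hC, hρ0, hρ1, hw⟩ := W_bound ν hh0 h K
    exact (tail hg0 hg (fun j => W_nonneg hh0.le K j) hC hρ0 hρ1 hw).1
  set Dh := ∑' j, g j * W ν (μ ^ 2 + 2 / 3 * ν ^ 2) K j with hDh
  have hsb : ∀ i, |s i| ≤ |r| + A := by
    intro i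
    have h1 : |s i| ≤ |s i - r| + |r| := by
      have := abs_add_le (s i - r) r
      rwa [sub_add_cancel] at this
    have h2 : A * θ ^ i ≤ A := mul_le_of_le_one_right hA (pow_le_one₀ hθ hθ1.le)
    linarith [hs i]
  refine Asymptotics.IsBigO.of_bound ((∑ k ∈ range K, B k) + (|r| + A) * Dh) ?_
  filter_upwards [eventually_ge_atTop (2 * K + 1)] with n hn
  have hn1 : 1 ≤ n := by omega
  have hnp : (0 : ℝ) < n := by exact_mod_cast hn1
  have hnK : (0 : ℝ) < (n : ℝ) ^ K := by positivity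
  have e1 : (∑ j ∈ range (J n + 1), s (n - j) * g j * mm μ ν n j) -
        ∑ k ∈ range K, TT r g μ ν k * be k n =
      (∑ k ∈ range K, ((∑ j ∈ range (J n + 1), s (n - j) * (g j * W ν (μ ^ 2) k j)) -
        r * ∑' j, g j * W ν (μ ^ 2) k j) * be k n) +
      ∑ j ∈ range (J n + 1), s (n - j) * g j *
        ∑ k ∈ Ico K (j + 1), W ν (μ ^ 2) k j * be k n := by
    have e2 : ∑ j ∈ range (J n + 1), s (n - j) * g j * mm μ ν n j =
        (∑ k ∈ range K, (∑ j ∈ range (J n + 1), s (n - j) * (g j * W ν (μ ^ 2) k j)) * be k n) +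
        ∑ j ∈ range (J n + 1), s (n - j) * g j *
        ∑ k ∈ Ico K (j + 1), W ν (μ ^ 2) k j * be k n := by
      have e3 : ∑ k ∈ range K, (∑ j ∈ range (J n + 1), s (n - j) * (g j * W ν (μ ^ 2) k j)) *
          be k n = ∑ j ∈ range (J n + 1), s (n - j) * g j *
            ∑ k ∈ range K, W ν (μ ^ 2) k j * be k n := by
        simp_rw [Finset.sum_mul, Finset.mul_sum]
        rw [Finset.sum_comm]
        exact Finset.sum_congr rfl fun j _ => Finset.sum_congr rfl fun k _ => by ring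
      rw [e3, ← Finset.sum_add_distrib]
      exact Finset.sum_congr rfl fun j _ => by rw [mm_split μ ν K n j, mul_add]
    rw [e2]
    simp_rw [sub_mul]
    rw [Finset.sum_sub_distrib]
    have e4 : ∑ k ∈ range K, TT r g μ ν k * be k n =
        ∑ k ∈ range K, r * (∑' j, g j * W ν (μ ^ 2) k j) * be k n :=
      Finset.sum_congr rfl fun k _ => by rw [TT_eq r μ ν k (hsum k)]
    rw [e4]
    ring
  rw [e1, Real.norm_eq_abs, Real.norm_eq_abs, abs_of_pos (inv_pos.2 hnK), ← div_eq_mul_inv,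
    le_div_iff₀ hnK]
  have t1 : |∑ k ∈ range K, ((∑ j ∈ range (J n + 1), s (n - j) * (g j * W ν (μ ^ 2) k j)) -
        r * ∑' j, g j * W ν (μ ^ 2) k j) * be k n| * (n : ℝ) ^ K ≤ ∑ k ∈ range K, B k := by
    rw [mul_comm]
    calc (n : ℝ) ^ K * |∑ k ∈ range K, ((∑ j ∈ range (J n + 1),
          s (n - j) * (g j * W ν (μ ^ 2) k j)) - r * ∑' j, g j * W ν (μ ^ 2) k j) * be k n|
        ≤ (n : ℝ) ^ K * ∑ k ∈ range K, |((∑ j ∈ range (J n + 1),
          s (n - j) * (g j * W ν (μ ^ 2) k j)) - r * ∑' j, g j * W ν (μ ^ 2) k j) * be k n| :=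
          mul_le_mul_of_nonneg_left (Finset.abs_sum_le_sum_abs _ _) hnK.le
      _ = ∑ k ∈ range K, (n : ℝ) ^ K * |((∑ j ∈ range (J n + 1),
          s (n - j) * (g j * W ν (μ ^ 2) k j)) - r * ∑' j, g j * W ν (μ ^ 2) k j) * be k n| := by
          rw [Finset.mul_sum]
      _ ≤ ∑ k ∈ range K, B k := by
          refine Finset.sum_le_sum fun k hk => ?_
          have hk' := mem_range.1 hk
          have b0 : 0 ≤ be k n := be_nonneg (by omega)
          have b1 : be k n ≤ 1 := be_le_one (by omega) hn1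
          rw [abs_mul, abs_of_nonneg b0, ← mul_assoc]
          exact (mul_le_of_le_one_right (by positivity) b1).trans (hB k n)
  have t2 : |∑ j ∈ range (J n + 1), s (n - j) * g j *
        ∑ k ∈ Ico K (j + 1), W ν (μ ^ 2) k j * be k n| * (n : ℝ) ^ K ≤ (|r| + A) * Dh := by
    have b0 : 0 ≤ be K n := be_nonneg (by omega)
    have b1 : be K n * (n : ℝ) ^ K ≤ 1 := by
      have := be_le (k := K) (n := n) (by omega) hn1
      calc be K n * (n : ℝ) ^ K ≤ ((n : ℝ) ^ K)⁻¹ * (n : ℝ) ^ K := by gcongr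
        _ = 1 := inv_mul_cancel₀ hnK.ne'
    have c1 : |∑ j ∈ range (J n + 1), s (n - j) * g j *
        ∑ k ∈ Ico K (j + 1), W ν (μ ^ 2) k j * be k n| ≤ (|r| + A) * Dh * be K n := by
      calc |∑ j ∈ range (J n + 1), s (n - j) * g j *
            ∑ k ∈ Ico K (j + 1), W ν (μ ^ 2) k j * be k n|
          ≤ ∑ j ∈ range (J n + 1), |s (n - j) * g j *
            ∑ k ∈ Ico K (j + 1), W ν (μ ^ 2) k j * be k n| := Finset.abs_sum_le_sum_abs _ _
        _ ≤ ∑ j ∈ range (J n + 1), (|r| + A) * be K n *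
              (g j * W ν (μ ^ 2 + 2 / 3 * ν ^ 2) K j) := by
            refine Finset.sum_le_sum fun j hj => ?_
            have hj' := mem_range.1 hj
            have hjn : 2 * j ≤ n := by have := hJ' n; omega
            have r0 : 0 ≤ ∑ k ∈ Ico K (j + 1), W ν (μ ^ 2) k j * be k n := by
              refine Finset.sum_nonneg fun k hk => ?_
              have := Finset.mem_Ico.1 hk
              exact mul_nonneg (W_nonneg hμ2.le k j) (be_nonneg (by omega))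
            rw [abs_mul, abs_mul, abs_of_nonneg (hg0 j), abs_of_nonneg r0]
            calc |s (n - j)| * g j * ∑ k ∈ Ico K (j + 1), W ν (μ ^ 2) k j * be k n
                ≤ (|r| + A) * g j * (W ν (μ ^ 2 + 2 / 3 * ν ^ 2) K j * be K n) := by
                  refine mul_le_mul (mul_le_mul_of_nonneg_right (hsb _) (hg0 j))
                    (R_bound hn1 hjn) r0 ?_
                  have := hg0 j
                  positivity
              _ = _ := by ring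
        _ = (|r| + A) * be K n * ∑ j ∈ range (J n + 1),
              (g j * W ν (μ ^ 2 + 2 / 3 * ν ^ 2) K j) := by rw [Finset.mul_sum]
        _ ≤ (|r| + A) * be K n * Dh := by
            refine mul_le_mul_of_nonneg_left ?_ (by positivity)
            exact hsumh.sum_le_tsum _ fun j _ => mul_nonneg (hg0 j) (W_nonneg hh0.le K j)
        _ = _ := by ring
    have hDh0 : 0 ≤ Dh := tsum_nonneg fun j => mul_nonneg (hg0 j) (W_nonneg hh0.le K j)
    calc _ ≤ (|r| + A) * Dh * be K n * (n : ℝ) ^ K := mul_le_mul_of_nonneg_right c1 hnK.le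
      _ = (|r| + A) * Dh * (be K n * (n : ℝ) ^ K) := by ring
      _ ≤ (|r| + A) * Dh := mul_le_of_le_one_right (by positivity) b1
  calc _ ≤ (|∑ k ∈ range K, ((∑ j ∈ range (J n + 1), s (n - j) * (g j * W ν (μ ^ 2) k j)) -
        r * ∑' j, g j * W ν (μ ^ 2) k j) * be k n| + |∑ j ∈ range (J n + 1), s (n - j) * g j *
        ∑ k ∈ Ico K (j + 1), W ν (μ ^ 2) k j * be k n|) * (n : ℝ) ^ K :=
        mul_le_mul_of_nonneg_right (abs_add_le _ _) hnK.le
    _ ≤ _ := by rw [add_mul]; exact add_le_add t1 t2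

end Pool.Agent.Zk52.LN
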