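import Pool.Agent.Zk79.LN.Base3
import Pool.Agent.Zk52.LN.Ex

set_option autoImplicit false
set_option linter.all false

namespace Pool.Agent.Zk52.LN

open Finset Filter Topology Asymptotics Pool.Agent.Zk79.LN

/-- products of odd numbers -/
noncomputable def Fo (a : ℕ) : ℝ := ∏ t ∈ range a, (2 * (t : ℝ) + 3)

lemma Fo_pos (a : ℕ) : 0 < Fo a := prod_pos fun t _ => by positivity

lemma Fo_succ (a : ℕ) : Fo (a + 1) = Fo a * (2 * (a : ℝ) + 3) := by
  unfold Fo; rw [prod_range_succ]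

lemma rf_succ (r : ℕ) (x : ℝ) : rf (r + 1) x = rf r x * (2 * x + 3 + 2 * (r : ℝ)) := by
  unfold rf; rw [prod_range_succ]

lemma rf_Fo (r n : ℕ) : rf r (n : ℝ) * Fo n = Fo (n + r) := by
  induction r with
  | zero => simp [rf]
  | succ r ih =>
    rw [rf_succ, ← add_assoc, Fo_succ, ← ih]
    push_cast
    ring

lemma be_succ (k n : ℕ) : be (k + 1) n = be k n * (1 / (2 * ((n : ℝ) - k) + 1)) := by
  unfold be; rw [prod_range_succ]

lemma be_Fo {k n : ℕ} (h : k ≤ n) : be k n * Fo n = Fo (n - k) := by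
  induction k with
  | zero => simp [be]
  | succ k ih =>
    have h1 := ih (by omega)
    have h2 : n - k = (n - (k + 1)) + 1 := by omega
    rw [h2, Fo_succ] at h1
    have h3 : ((n - (k + 1) : ℕ) : ℝ) = (n : ℝ) - (k + 1) := by
      rw [Nat.cast_sub h]; push_cast; ring
    rw [h3] at h1
    have h4 : (0 : ℝ) < 2 * ((n : ℝ) - k) + 1 := by
      have : ((k + 1 : ℕ) : ℝ) ≤ n := by exact_mod_cast h
      push_cast at this
      linarith
    rw [be_succ, mul_assoc, mul_comm (1 / _) (Fo n), ← mul_assoc, h1, mul_one_div,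
      div_eq_iff h4.ne']
    ring

lemma tele {k l n Q : ℕ} (hk : k ≤ n) (hl : l ≤ Q) :
    be k n * rf l ((n - k : ℕ) : ℝ) = be (k + Q - l) (n + Q) * rf Q (n : ℝ) := by
  have h1 := be_Fo hk
  have h2 := rf_Fo l (n - k)
  have h3 := be_Fo (k := k + Q - l) (n := n + Q) (by omega)
  have h4 := rf_Fo Q n
  rw [show n + Q - (k + Q - l) = n - k + l by omega] at h3
  have h5 := Fo_pos n
  apply mul_right_cancel₀ h5.ne'
  calc be k n * rf l ((n - k : ℕ) : ℝ) * Fo n = rf l ((n - k : ℕ) : ℝ) * (be k n * Fo n) := by ring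
    _ = Fo (n - k + l) := by rw [h1, h2]
    _ = be (k + Q - l) (n + Q) * (rf Q (n : ℝ) * Fo n) := by rw [h4, h3]
    _ = _ := by ring

lemma rf_pos (r n : ℕ) : 0 < rf r (n : ℝ) := prod_pos fun t _ => by positivity

lemma rf_le {r Q i n : ℕ} (hr : r ≤ Q) (hi : i ≤ n) : rf r (i : ℝ) ≤ rf Q (n : ℝ) := by
  have h1 : rf r (i : ℝ) ≤ rf r (n : ℝ) := by
    unfold rf
    refine prod_le_prod (fun t _ => by positivity) fun t _ => ?_
    have : (i : ℝ) ≤ n := by exact_mod_cast hi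
    linarith
  refine h1.trans ?_
  induction Q, hr using Nat.le_induction with
  | base => exact le_rfl
  | succ q _ ih =>
    refine ih.trans ?_
    rw [rf_succ]
    have h2 := rf_pos q n
    have h3 : (0 : ℝ) ≤ n := Nat.cast_nonneg n
    have h4 : (0 : ℝ) ≤ q := Nat.cast_nonneg q
    nlinarith

/-- Vandermonde with step two -/
lemma vand (x y : ℝ) (r : ℕ) : ∏ t ∈ range r, (x + y + 2 * (t : ℝ)) =
    ∑ l ∈ range (r + 1), (r.choose l : ℝ) * (∏ t ∈ range l, (x + 2 * (t : ℝ))) *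
      ∏ t ∈ range (r - l), (y + 2 * (t : ℝ)) := by
  have key : ∀ r : ℕ, ∏ t ∈ range r, (x + y + 2 * (t : ℝ)) =
      ∑ ij ∈ antidiagonal r, (r.choose ij.1 : ℝ) * ((∏ t ∈ range ij.1, (x + 2 * (t : ℝ))) *
        ∏ t ∈ range ij.2, (y + 2 * (t : ℝ))) := by
    intro r
    induction r with
    | zero => simp
    | succ r ih =>
      rw [Finset.sum_antidiagonal_choose_succ_mul
        (fun a b => (∏ t ∈ range a, (x + 2 * (t : ℝ))) * ∏ t ∈ range b, (y + 2 * (t : ℝ))) r,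
        prod_range_succ, ih, sum_mul, ← sum_add_distrib]
      refine sum_congr rfl fun ij hij => ?_
      have h1 := mem_antidiagonal.1 hij
      have h2 : (r.choose ij.2 : ℝ) = r.choose ij.1 := by
        rw [← h1, Nat.choose_symm_add]
      have h3 : (r : ℝ) = ij.1 + ij.2 := by rw [← h1]; push_cast; ring
      rw [h2, prod_range_succ, prod_range_succ, h3]
      ring
  rw [key r, Nat.sum_antidiagonal_eq_sum_range_succ_mk]
  exact sum_congr rfl fun l _ => by ring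

lemma rf_vand {r k j n : ℕ} (hk : k ≤ n) (hj : j ≤ n) : rf r ((n - j : ℕ) : ℝ) =
    ∑ l ∈ range (r + 1), (r.choose l : ℝ) * rf l ((n - k : ℕ) : ℝ) *
      ∏ t ∈ range (r - l), (2 * ((k : ℝ) - j) + 2 * (t : ℝ)) := by
  have h := vand (2 * ((n - k : ℕ) : ℝ) + 3) (2 * ((k : ℝ) - j)) r
  have e : (2 * ((n - k : ℕ) : ℝ) + 3) + (2 * ((k : ℝ) - j)) = 2 * ((n - j : ℕ) : ℝ) + 3 := by
    rw [Nat.cast_sub hk, Nat.cast_sub hj]; ring
  rw [e] at h
  exact h

lemma main_id {r k j n Q : ℕ} (hk : k ≤ n) (hj : j ≤ n) (hr : r ≤ Q) :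
    rf r ((n - j : ℕ) : ℝ) * be k n / rf Q (n : ℝ) =
    ∑ l ∈ range (r + 1), (r.choose l : ℝ) *
      (∏ t ∈ range (r - l), (2 * ((k : ℝ) - j) + 2 * (t : ℝ))) * be (k + Q - l) (n + Q) := by
  rw [rf_vand hk hj, div_eq_iff (rf_pos Q n).ne', sum_mul, sum_mul]
  refine sum_congr rfl fun l hl => ?_
  have := tele hk (show l ≤ Q by have := mem_range.1 hl; omega)
  calc (r.choose l : ℝ) * rf l ((n - k : ℕ) : ℝ) *
        (∏ t ∈ range (r - l), (2 * ((k : ℝ) - j) + 2 * (t : ℝ))) * be k n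
      = (r.choose l : ℝ) * (∏ t ∈ range (r - l), (2 * ((k : ℝ) - j) + 2 * (t : ℝ))) *
        (be k n * rf l ((n - k : ℕ) : ℝ)) := by ring
    _ = _ := by rw [this]; ring

lemma dk_eq (μ ν : ℝ) (k j : ℕ) : dk μ ν k j = W ν (μ ^ 2) k j := by
  unfold dk W
  rw [← pow_mul]

lemma mm_nonneg {μ ν : ℝ} {n j : ℕ} (hj : j ≤ n) : 0 ≤ mm μ ν n j := by
  rw [mm_eq]
  refine sum_nonneg fun k hk => ?_
  have := mem_range.1 hk
  exact mul_nonneg (W_nonneg (sq_nonneg μ) k j) (be_nonneg (by omega))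

lemma mm_le {μ ν : ℝ} {n j : ℕ} (hj : j ≤ n) : mm μ ν n j ≤ (μ ^ 2 + ν ^ 2) ^ j := by
  unfold mm
  rw [add_comm (μ ^ 2), add_pow]
  refine sum_le_sum fun k hk => ?_
  have hk' : k ≤ j := by have := mem_range.1 hk; omega
  have h1 : ∏ t ∈ range k, ((2 * ((j : ℝ) - t) + 1) / (2 * ((n : ℝ) - t) + 1)) ≤ 1 := by
    refine prod_le_one (fun t ht => ?_) fun t ht => ?_
    · have h1 : (t : ℝ) ≤ j := by
        have := mem_range.1 ht
        exact_mod_cast (by omega : t ≤ j)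
      have h2 : (j : ℝ) ≤ n := by exact_mod_cast hj
      have h3 : (0 : ℝ) ≤ 2 * ((j : ℝ) - t) + 1 := by linarith
      have h4 : (0 : ℝ) ≤ 2 * ((n : ℝ) - t) + 1 := by linarith
      positivity
    · have h1 : (t : ℝ) ≤ j := by
        have := mem_range.1 ht
        exact_mod_cast (by omega : t ≤ j)
      have h2 : (j : ℝ) ≤ n := by exact_mod_cast hj
      rw [div_le_one (by linarith)]
      linarith
  have h2 : (0 : ℝ) ≤ (j.choose k : ℝ) * μ ^ (2 * (j - k)) * ν ^ (2 * k) := by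
    rw [pow_mul, pow_mul]; positivity
  calc (j.choose k : ℝ) * μ ^ (2 * (j - k)) * ν ^ (2 * k) *
        ∏ t ∈ range k, ((2 * ((j : ℝ) - t) + 1) / (2 * ((n : ℝ) - t) + 1))
      ≤ (j.choose k : ℝ) * μ ^ (2 * (j - k)) * ν ^ (2 * k) := mul_le_of_le_one_right h2 h1
    _ = _ := by rw [pow_mul, pow_mul]; ring

/-- from bounds to `O` -/
lemma of_bd {f : ℕ → ℝ} {K : ℕ} (B : ℝ) (h : ∀ᶠ n : ℕ in atTop, (n : ℝ) ^ K * |f n| ≤ B) :
    f =O[atTop] fun n : ℕ => ((n : ℝ) ^ K)⁻¹ := by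
  refine IsBigO.of_bound B ?_
  filter_upwards [h, eventually_ge_atTop 1] with n hn hn1
  have hnp : (0 : ℝ) < n := by exact_mod_cast hn1
  have hnK : (0 : ℝ) < (n : ℝ) ^ K := by positivity
  rw [Real.norm_eq_abs, Real.norm_eq_abs, abs_of_pos (inv_pos.2 hnK), ← div_eq_mul_inv,
    le_div_iff₀ hnK, mul_comm]
  exact hn

/-- exponentially small functions -/
lemma of_exp {f : ℕ → ℝ} (K : ℕ) {C σ : ℝ} (hC : 0 ≤ C) (hσ : 0 ≤ σ) (hσ1 : σ < 1)
    (h : ∀ᶠ n : ℕ in atTop, |f n| ≤ C * σ ^ (n / 2 + 1)) :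
    f =O[atTop] fun n : ℕ => ((n : ℝ) ^ K)⁻¹ := by
  obtain ⟨C1, hC1, h1⟩ := pow_exp_bdd K hσ hσ1
  refine of_bd (2 ^ K * C1 * C) ?_
  filter_upwards [h] with n hn
  have h2 : (n : ℝ) ≤ 2 * ((n / 2 + 1 : ℕ) : ℝ) := by exact_mod_cast (by omega : n ≤ 2 * (n / 2 + 1))
  calc (n : ℝ) ^ K * |f n| ≤ (2 * ((n / 2 + 1 : ℕ) : ℝ)) ^ K * (C * σ ^ (n / 2 + 1)) := by gcongr
    _ = 2 ^ K * (((n / 2 + 1 : ℕ) : ℝ) ^ K * σ ^ (n / 2 + 1)) * C := by rw [mul_pow]; ring
    _ ≤ 2 ^ K * C1 * C := by gcongr; exact h1 _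

lemma poly_mul {w : ℕ → ℝ} {C ρ : ℝ} (hC : 0 ≤ C) (hρ0 : 0 < ρ) (hρ1 : ρ < 1)
    (hw : ∀ j, w j ≤ C * ρ ^ j) (i : ℕ) {a : ℝ} (ha : 0 ≤ a) :
    ∃ C' ρ' : ℝ, 0 ≤ C' ∧ 0 < ρ' ∧ ρ' < 1 ∧ ∀ j : ℕ, (a + 2 * (j : ℝ)) ^ i * w j ≤ C' * ρ' ^ j := by
  obtain ⟨ρ', h1, h2⟩ := exists_between hρ1
  have hρ'0 : 0 < ρ' := hρ0.trans h1
  have hσ0 : 0 < ρ / ρ' := by positivity
  obtain ⟨C1, hC1, hb⟩ := pow_exp_bdd i (σ := ρ / ρ') hσ0.le ((div_lt_one hρ'0).2 h1)
  refine ⟨(a + 2) ^ i * (C1 / (ρ / ρ')) * C, ρ', by positivity, hρ'0, h2, fun j => ?_⟩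
  have h3 : a + 2 * (j : ℝ) ≤ (a + 2) * ((j + 1 : ℕ) : ℝ) := by
    push_cast
    have : (0 : ℝ) ≤ j := Nat.cast_nonneg j
    nlinarith [mul_nonneg ha this]
  have h4 : (((j + 1 : ℕ) : ℝ)) ^ i * (ρ / ρ') ^ j ≤ C1 / (ρ / ρ') := by
    rw [le_div_iff₀ hσ0, mul_assoc, ← pow_succ]
    exact hb (j + 1)
  have h5 : ρ ^ j = (ρ / ρ') ^ j * ρ' ^ j := by
    rw [div_pow, div_mul_cancel₀ _ (pow_ne_zero _ hρ'0.ne')]
  calc (a + 2 * (j : ℝ)) ^ i * w j ≤ ((a + 2) * ((j + 1 : ℕ) : ℝ)) ^ i * (C * ρ ^ j) := by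
        have h6 := hw j
        have h7 : 0 ≤ a + 2 * (j : ℝ) := by positivity
        calc (a + 2 * (j : ℝ)) ^ i * w j ≤ (a + 2 * (j : ℝ)) ^ i * (C * ρ ^ j) := by gcongr
          _ ≤ _ := by gcongr
    _ = (a + 2) ^ i * ((((j + 1 : ℕ) : ℝ)) ^ i * (ρ / ρ') ^ j) * C * ρ' ^ j := by
        rw [mul_pow, h5]; ring
    _ ≤ (a + 2) ^ i * (C1 / (ρ / ρ')) * C * ρ' ^ j := by gcongr

lemma pi_le (k i j : ℕ) : |∏ t ∈ range i, (2 * ((k : ℝ) - j) + 2 * (t : ℝ))| ≤
    (2 * (k : ℝ) + 2 * i + 2 * (j : ℝ)) ^ i := by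
  rw [abs_prod]
  calc ∏ t ∈ range i, |2 * ((k : ℝ) - j) + 2 * (t : ℝ)|
      ≤ ∏ _t ∈ range i, (2 * (k : ℝ) + 2 * i + 2 * (j : ℝ)) := by
        refine prod_le_prod (fun t _ => abs_nonneg _) fun t ht => ?_
        have h1 : (t : ℝ) ≤ i := by
          have := mem_range.1 ht
          exact_mod_cast (by omega : t ≤ i)
        have h2 : (0 : ℝ) ≤ t := Nat.cast_nonneg t
        have h3 : (0 : ℝ) ≤ k := Nat.cast_nonneg k
        have h4 : (0 : ℝ) ≤ j := Nat.cast_nonneg j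
        rw [abs_le]
        constructor <;> linarith
    _ = _ := by rw [prod_const, card_range]

section
variable {g : ℕ → ℝ} {μ ν : ℝ} (hg0 : ∀ i, 0 ≤ g i)
  (hg : ∀ ρ : ℝ, 0 ≤ ρ → ρ < 1 → Summable fun j => g j * ρ ^ j) (hμ : 0 < μ) (hμ1 : μ ^ 2 < 1)

include hg0 hg hμ hμ1 in
/-- the partial sums of `DD` -/
lemma DD_tail (k i : ℕ) : ∃ C σ : ℝ, 0 ≤ C ∧ 0 ≤ σ ∧ σ < 1 ∧ ∀ N : ℕ,
    |(∑ j ∈ range N, g j * dk μ ν k j * ∏ t ∈ range i, (2 * ((k : ℝ) - j) + 2 * (t : ℝ))) -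
      DD g μ ν k i| ≤ C * σ ^ N := by
  obtain ⟨C, ρ, hC, hρ0, hρ1, hw⟩ := W_bound ν (by positivity : 0 < μ ^ 2) hμ1 k
  obtain ⟨C', ρ', hC', hρ'0, hρ'1, hw'⟩ := poly_mul hC hρ0 hρ1 hw i
    (a := 2 * (k : ℝ) + 2 * i) (by positivity)
  have hw0 : ∀ j : ℕ, 0 ≤ (2 * (k : ℝ) + 2 * i + 2 * (j : ℝ)) ^ i * W ν (μ ^ 2) k j := fun j =>
    mul_nonneg (by positivity) (W_nonneg (sq_nonneg μ) k j)
  obtain ⟨hsum, C'', σ, h1, h2, h3, h4⟩ := tail hg0 hg hw0 hC' hρ'0 hρ'1 hw'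
  refine ⟨C'', σ, h1, h2, h3, fun N => ?_⟩
  have hle : ∀ j : ℕ, |g j * dk μ ν k j * ∏ t ∈ range i, (2 * ((k : ℝ) - j) + 2 * (t : ℝ))| ≤
      g j * ((2 * (k : ℝ) + 2 * i + 2 * (j : ℝ)) ^ i * W ν (μ ^ 2) k j) := by
    intro j
    rw [abs_mul, abs_mul, abs_of_nonneg (hg0 j), dk_eq, abs_of_nonneg (W_nonneg (sq_nonneg μ) k j)]
    calc g j * W ν (μ ^ 2) k j * |∏ t ∈ range i, (2 * ((k : ℝ) - j) + 2 * (t : ℝ))|
        ≤ g j * W ν (μ ^ 2) k j * (2 * (k : ℝ) + 2 * i + 2 * (j : ℝ)) ^ i :=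
          mul_le_mul_of_nonneg_left (pi_le k i j)
            (mul_nonneg (hg0 j) (W_nonneg (sq_nonneg μ) k j))
      _ = _ := by ring
  have hs : Summable fun j : ℕ => g j * dk μ ν k j *
      ∏ t ∈ range i, (2 * ((k : ℝ) - j) + 2 * (t : ℝ)) :=
    Summable.of_abs (Summable.of_nonneg_of_le (fun j => abs_nonneg _) hle hsum)
  have e : (∑ j ∈ range N, g j * dk μ ν k j * ∏ t ∈ range i, (2 * ((k : ℝ) - j) + 2 * (t : ℝ))) -
      DD g μ ν k i = - ∑' j : ℕ, (g (j + N) * dk μ ν k (j + N) *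
        ∏ t ∈ range i, (2 * ((k : ℝ) - (j + N : ℕ)) + 2 * (t : ℝ))) := by
    unfold DD
    rw [← hs.sum_add_tsum_nat_add N]
    ring
  rw [e, abs_neg]
  have hsN := (summable_nat_add_iff N).2 hs
  have hsumN := (summable_nat_add_iff N).2 hsum
  refine le_trans ?_ (h4 N)
  have h5 := norm_tsum_le_tsum_norm (f := fun j : ℕ => (g (j + N) * dk μ ν k (j + N) *
        ∏ t ∈ range i, (2 * ((k : ℝ) - (j + N : ℕ)) + 2 * (t : ℝ)))) hsN.norm
  refine h5.trans ?_
  exact hsN.norm.tsum_le_tsum (fun j => hle (j + N)) hsumN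

end

lemma sum_O {ι : Type} {v : ℕ → ℝ} (S : Finset ι) (F : ι → ℕ → ℝ)
    (h : ∀ i ∈ S, F i =O[atTop] v) : (fun n => ∑ i ∈ S, F i n) =O[atTop] v := by
  have e : (fun n => ∑ i ∈ S, F i n) = ∑ i ∈ S, F i := by
    funext n
    rw [Finset.sum_apply]
  rw [e]
  exact IsBigO.sum h

lemma const_O {v : ℕ → ℝ} (c : ℝ) (F : ℕ → ℝ) (h : F =O[atTop] v) :
    (fun n => c * F n) =O[atTop] v := IsBigO.const_mul_left h c

/-- B -/
theorem expansionG {s g p : ℕ → ℝ} {Q : ℕ} {A θ μ ν : ℝ} (hA : 0 ≤ A) (hθ : 0 ≤ θ) (hθ1 : θ < 1)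
    (hg0 : ∀ i, 0 ≤ g i)
    (hs : ∀ i : ℕ, |s i - ∑ r ∈ range (Q + 1), p r * rf r i| ≤ A * θ ^ i)
    (hg : ∀ ρ : ℝ, 0 ≤ ρ → ρ < 1 → Summable fun j => g j * ρ ^ j)
    (hμ : 0 < μ) (hν : 0 < ν) (h : μ ^ 2 + ν ^ 2 < 1) (K : ℕ) :
    (fun n : ℕ => (∑ j ∈ range (n + 1), s (n - j) * g j * mm μ ν n j) / rf Q n -
        ∑ k ∈ range K, ee p Q g μ ν k * be k (n + Q)) =O[atTop] fun n : ℕ => ((n : ℝ) ^ K)⁻¹ := by
  have hμ2 : 0 < μ ^ 2 := by positivity
  have hν2 : 0 < ν ^ 2 := by positivity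
  have hμ21 : μ ^ 2 < 1 := by linarith
  set h0 := μ ^ 2 + ν ^ 2 with hh0
  have hh0p : 0 < h0 := by positivity
  have hh' : μ ^ 2 + 2 / 3 * ν ^ 2 < 1 := by linarith
  have hh'0 : 0 < μ ^ 2 + 2 / 3 * ν ^ 2 := by positivity
  set P : ℕ → ℝ := fun i => ∑ r ∈ range (Q + 1), p r * rf r i with hP
  set P0 := ∑ r ∈ range (Q + 1), |p r| with hP0
  have hP00 : 0 ≤ P0 := sum_nonneg fun r _ => abs_nonneg _
  have hPb : ∀ i n : ℕ, i ≤ n → |P i| ≤ P0 * rf Q n := by
    intro i n hin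
    calc |P i| ≤ ∑ r ∈ range (Q + 1), |p r * rf r i| := abs_sum_le_sum_abs _ _
      _ ≤ ∑ r ∈ range (Q + 1), |p r| * rf Q n := by
          refine sum_le_sum fun r hr => ?_
          rw [abs_mul, abs_of_pos (rf_pos r i)]
          refine mul_le_mul_of_nonneg_left (rf_le ?_ hin) (abs_nonneg _)
          have := mem_range.1 hr
          omega
      _ = P0 * rf Q n := by rw [hP0, sum_mul]
  -- (a)
  have hTa : (fun n : ℕ => (∑ j ∈ range (n + 1), (s (n - j) - P (n - j)) * g j * mm μ ν n j) /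
      rf Q n) =O[atTop] fun n : ℕ => ((n : ℝ) ^ K)⁻¹ := by
    obtain ⟨ρ, hρ0, hρ1⟩ := exists_between h
    have hρp : 0 < ρ := hh0p.trans hρ0
    set σ := max θ (h0 / ρ) with hσ
    have hσ0 : 0 ≤ σ := hθ.trans (le_max_left _ _)
    have hσ1 : σ < 1 := max_lt hθ1 ((div_lt_one hρp).2 hρ0)
    have hsumρ := hg ρ hρp.le hρ1
    set G := ∑' j, g j * ρ ^ j with hG
    have hG0 : 0 ≤ G := tsum_nonneg fun j => mul_nonneg (hg0 j) (by positivity)
    refine of_exp K (C := A * G) (σ := σ) (by positivity) hσ0 hσ1 ?_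
    filter_upwards [eventually_ge_atTop 1] with n hn
    rw [abs_div, abs_of_pos (rf_pos Q n)]
    have hrf1 : (1 : ℝ) ≤ rf Q n := by
      have := rf_le (r := 0) (Q := Q) (i := n) (n := n) (Nat.zero_le _) le_rfl
      simpa [rf] using this
    have h1 : |∑ j ∈ range (n + 1), (s (n - j) - P (n - j)) * g j * mm μ ν n j| ≤
        A * G * σ ^ n := by
      calc |∑ j ∈ range (n + 1), (s (n - j) - P (n - j)) * g j * mm μ ν n j|
          ≤ ∑ j ∈ range (n + 1), |(s (n - j) - P (n - j)) * g j * mm μ ν n j| :=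
            abs_sum_le_sum_abs _ _
        _ ≤ ∑ j ∈ range (n + 1), A * σ ^ n * (g j * ρ ^ j) := by
            refine sum_le_sum fun j hj => ?_
            have hjn : j ≤ n := by have := mem_range.1 hj; omega
            rw [abs_mul, abs_mul, abs_of_nonneg (hg0 j), abs_of_nonneg (mm_nonneg hjn)]
            have e1 : h0 ^ j = (h0 / ρ) ^ j * ρ ^ j := by
              rw [div_pow, div_mul_cancel₀ _ (pow_ne_zero _ hρp.ne')]
            have e2 : |s (n - j) - P (n - j)| ≤ A * σ ^ (n - j) := by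
              refine (hs (n - j)).trans ?_
              have := le_max_left θ (h0 / ρ)
              gcongr
            have e3 : mm μ ν n j ≤ σ ^ j * ρ ^ j := by
              refine (mm_le hjn).trans ?_
              rw [← hh0, e1]
              have := le_max_right θ (h0 / ρ)
              gcongr
            have e4 : σ ^ n = σ ^ (n - j) * σ ^ j := by
              rw [← pow_add, Nat.sub_add_cancel hjn]
            calc |s (n - j) - P (n - j)| * g j * mm μ ν n j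
                ≤ (A * σ ^ (n - j)) * g j * (σ ^ j * ρ ^ j) := by
                  have := hg0 j
                  have := mm_nonneg (μ := μ) (ν := ν) hjn
                  gcongr
              _ = A * σ ^ n * (g j * ρ ^ j) := by rw [e4]; ring
        _ = A * σ ^ n * ∑ j ∈ range (n + 1), (g j * ρ ^ j) := by rw [mul_sum]
        _ ≤ A * σ ^ n * G := by
            refine mul_le_mul_of_nonneg_left ?_ (by positivity)
            exact hsumρ.sum_le_tsum _ fun j _ => mul_nonneg (hg0 j) (by positivity)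
        _ = A * G * σ ^ n := by ring
    have h2 : σ ^ n ≤ σ ^ (n / 2 + 1) := pow_le_pow_of_le_one hσ0 hσ1.le (by omega)
    calc |∑ j ∈ range (n + 1), (s (n - j) - P (n - j)) * g j * mm μ ν n j| / rf Q n
        ≤ |∑ j ∈ range (n + 1), (s (n - j) - P (n - j)) * g j * mm μ ν n j| :=
          div_le_self (abs_nonneg _) hrf1
      _ ≤ A * G * σ ^ n := h1
      _ ≤ A * G * σ ^ (n / 2 + 1) := by gcongr
  -- (b)
  have hTb : (fun n : ℕ => (∑ j ∈ Ico (n / 2 + 1) (n + 1), P (n - j) * g j * mm μ ν n j) /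
      rf Q n) =O[atTop] fun n : ℕ => ((n : ℝ) ^ K)⁻¹ := by
    obtain ⟨hsum, C, σ, hC, hσ, hσ1, hT⟩ := tail hg0 hg (w := fun j => h0 ^ j)
      (fun j => by positivity) (C := 1) (ρ := h0) zero_le_one hh0p h (fun j => by simp)
    refine of_exp K (C := P0 * C) (σ := σ) (by positivity) hσ hσ1 ?_
    filter_upwards with n
    rw [abs_div, abs_of_pos (rf_pos Q n), div_le_iff₀ (rf_pos Q n)]
    have hlow : ∀ j : ℕ, 0 ≤ g j * h0 ^ j := fun j => mul_nonneg (hg0 j) (by positivity)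
    calc |∑ j ∈ Ico (n / 2 + 1) (n + 1), P (n - j) * g j * mm μ ν n j|
        ≤ ∑ j ∈ Ico (n / 2 + 1) (n + 1), |P (n - j) * g j * mm μ ν n j| := abs_sum_le_sum_abs _ _
      _ ≤ ∑ j ∈ Ico (n / 2 + 1) (n + 1), (P0 * rf Q n) * (g j * h0 ^ j) := by
          refine sum_le_sum fun j hj => ?_
          have hjn : j ≤ n := by have := (mem_Ico.1 hj).2; omega
          rw [abs_mul, abs_mul, abs_of_nonneg (hg0 j), abs_of_nonneg (mm_nonneg hjn)]
          have e1 := hPb (n - j) n (Nat.sub_le _ _)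
          have e2 : mm μ ν n j ≤ h0 ^ j := mm_le hjn
          have e3 := hg0 j
          have e4 := mm_nonneg (μ := μ) (ν := ν) hjn
          calc |P (n - j)| * g j * mm μ ν n j ≤ (P0 * rf Q n) * g j * h0 ^ j := by
                gcongr
                exact mul_nonneg (mul_nonneg hP00 (rf_pos Q n).le) e3
            _ = _ := by ring
      _ = (P0 * rf Q n) * ∑ j ∈ Ico (n / 2 + 1) (n + 1), (g j * h0 ^ j) := by rw [mul_sum]
      _ ≤ (P0 * rf Q n) * (C * σ ^ (n / 2 + 1)) := by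
          refine mul_le_mul_of_nonneg_left ?_ (mul_nonneg hP00 (rf_pos Q n).le)
          refine le_trans ?_ (hT (n / 2 + 1))
          rw [sum_Ico_eq_sum_range]
          have hsN := (summable_nat_add_iff (n / 2 + 1)).2 hsum
          have : ∑ x ∈ range (n + 1 - (n / 2 + 1)), g (n / 2 + 1 + x) * h0 ^ (n / 2 + 1 + x) =
              ∑ x ∈ range (n + 1 - (n / 2 + 1)), g (x + (n / 2 + 1)) * h0 ^ (x + (n / 2 + 1)) :=
            sum_congr rfl fun x _ => by rw [add_comm (n / 2 + 1) x]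
          rw [this]
          exact hsN.sum_le_tsum _ fun x _ => hlow _
      _ = P0 * C * σ ^ (n / 2 + 1) * rf Q n := by ring
  -- (c)
  have hTc : (fun n : ℕ => (∑ j ∈ range (n / 2 + 1), P (n - j) * g j *
      ∑ k ∈ Ico K (j + 1), W ν (μ ^ 2) k j * be k n) /
      rf Q n) =O[atTop] fun n : ℕ => ((n : ℝ) ^ K)⁻¹ := by
    have hsumh : Summable fun j => g j * W ν (μ ^ 2 + 2 / 3 * ν ^ 2) K j := by
      obtain ⟨C, ρ, hC, hρ0, hρ1, hw⟩ := W_bound ν hh'0 hh' K
      exact (tail hg0 hg (fun j => W_nonneg hh'0.le K j) hC hρ0 hρ1 hw).1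
    set Dh := ∑' j, g j * W ν (μ ^ 2 + 2 / 3 * ν ^ 2) K j with hDh
    have hDh0 : 0 ≤ Dh := tsum_nonneg fun j => mul_nonneg (hg0 j) (W_nonneg hh'0.le K j)
    refine of_bd (P0 * Dh) ?_
    filter_upwards [eventually_ge_atTop (2 * K + 1)] with n hn
    have hn1 : 1 ≤ n := by omega
    have hnp : (0 : ℝ) < n := by exact_mod_cast hn1
    have hnK : (0 : ℝ) < (n : ℝ) ^ K := by positivity
    have b0 : 0 ≤ be K n := be_nonneg (by omega)
    have b1 : (n : ℝ) ^ K * be K n ≤ 1 := by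
      have := be_le (k := K) (n := n) (by omega) hn1
      calc (n : ℝ) ^ K * be K n ≤ (n : ℝ) ^ K * ((n : ℝ) ^ K)⁻¹ := by gcongr
        _ = 1 := mul_inv_cancel₀ hnK.ne'
    have h1 : |∑ j ∈ range (n / 2 + 1), P (n - j) * g j *
        ∑ k ∈ Ico K (j + 1), W ν (μ ^ 2) k j * be k n| ≤ (P0 * Dh * be K n) * rf Q n := by
      calc |∑ j ∈ range (n / 2 + 1), P (n - j) * g j *
          ∑ k ∈ Ico K (j + 1), W ν (μ ^ 2) k j * be k n|
          ≤ ∑ j ∈ range (n / 2 + 1), |P (n - j) * g j *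
            ∑ k ∈ Ico K (j + 1), W ν (μ ^ 2) k j * be k n| := abs_sum_le_sum_abs _ _
        _ ≤ ∑ j ∈ range (n / 2 + 1), (P0 * rf Q n * be K n) *
              (g j * W ν (μ ^ 2 + 2 / 3 * ν ^ 2) K j) := by
            refine sum_le_sum fun j hj => ?_
            have hj' := mem_range.1 hj
            have hjn : 2 * j ≤ n := by omega
            have r0 : 0 ≤ ∑ k ∈ Ico K (j + 1), W ν (μ ^ 2) k j * be k n := by
              refine sum_nonneg fun k hk => ?_
              have := mem_Ico.1 hk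
              exact mul_nonneg (W_nonneg hμ2.le k j) (be_nonneg (by omega))
            rw [abs_mul, abs_mul, abs_of_nonneg (hg0 j), abs_of_nonneg r0]
            have e1 := hPb (n - j) n (Nat.sub_le _ _)
            have e3 := hg0 j
            calc |P (n - j)| * g j * ∑ k ∈ Ico K (j + 1), W ν (μ ^ 2) k j * be k n
                ≤ (P0 * rf Q n) * g j * (W ν (μ ^ 2 + 2 / 3 * ν ^ 2) K j * be K n) := by
                  refine mul_le_mul (mul_le_mul_of_nonneg_right e1 e3) (R_bound hn1 hjn) r0 ?_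
                  exact mul_nonneg (mul_nonneg hP00 (rf_pos Q n).le) e3
              _ = _ := by ring
        _ = (P0 * rf Q n * be K n) * ∑ j ∈ range (n / 2 + 1),
              (g j * W ν (μ ^ 2 + 2 / 3 * ν ^ 2) K j) := by rw [mul_sum]
        _ ≤ (P0 * rf Q n * be K n) * Dh := by
            refine mul_le_mul_of_nonneg_left ?_ ?_
            · exact hsumh.sum_le_tsum _ fun j _ => mul_nonneg (hg0 j) (W_nonneg hh'0.le K j)
            · exact mul_nonneg (mul_nonneg hP00 (rf_pos Q n).le) b0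
        _ = _ := by ring
    rw [abs_div, abs_of_pos (rf_pos Q n)]
    calc (n : ℝ) ^ K * (|∑ j ∈ range (n / 2 + 1), P (n - j) * g j *
          ∑ k ∈ Ico K (j + 1), W ν (μ ^ 2) k j * be k n| / rf Q n)
        ≤ (n : ℝ) ^ K * (P0 * Dh * be K n) := by
          refine mul_le_mul_of_nonneg_left ?_ hnK.le
          rw [div_le_iff₀ (rf_pos Q n)]
          exact h1
      _ = P0 * Dh * ((n : ℝ) ^ K * be K n) := by ring
      _ ≤ P0 * Dh := mul_le_of_le_one_right (by positivity) b1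
  -- (e)
  set SS : ℕ → ℕ → ℕ → ℝ := fun k i N =>
    ∑ j ∈ range N, g j * dk μ ν k j * ∏ t ∈ range i, (2 * ((k : ℝ) - j) + 2 * (t : ℝ)) with hSS
  have hTe : (fun n : ℕ => ∑ k ∈ range K, ∑ r ∈ range (Q + 1), ∑ l ∈ range (r + 1),
      ((r.choose l : ℝ) * p r) * (be (k + Q - l) (n + Q) *
        (SS k (r - l) (n / 2 + 1) - DD g μ ν k (r - l)))) =O[atTop]
      fun n : ℕ => ((n : ℝ) ^ K)⁻¹ := by
    refine sum_O (range K) (fun k n => ∑ r ∈ range (Q + 1), ∑ l ∈ range (r + 1),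
      ((r.choose l : ℝ) * p r) * (be (k + Q - l) (n + Q) *
        (SS k (r - l) (n / 2 + 1) - DD g μ ν k (r - l)))) fun k _ => ?_
    refine sum_O (range (Q + 1)) (fun r n => ∑ l ∈ range (r + 1),
      ((r.choose l : ℝ) * p r) * (be (k + Q - l) (n + Q) *
        (SS k (r - l) (n / 2 + 1) - DD g μ ν k (r - l)))) fun r _ => ?_
    refine sum_O (range (r + 1)) (fun l n => 
      ((r.choose l : ℝ) * p r) * (be (k + Q - l) (n + Q) *
        (SS k (r - l) (n / 2 + 1) - DD g μ ν k (r - l)))) fun l hl => ?_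
    refine const_O ((r.choose l : ℝ) * p r) (fun n => be (k + Q - l) (n + Q) *
        (SS k (r - l) (n / 2 + 1) - DD g μ ν k (r - l))) ?_
    obtain ⟨C, σ, hC, hσ, hσ1, hT⟩ := DD_tail hg0 hg hμ hμ21 (ν := ν) k (r - l)
    refine of_exp K hC hσ hσ1 ?_
    filter_upwards [eventually_ge_atTop (2 * (k + Q) + 1)] with n hn
    have b0 : 0 ≤ be (k + Q - l) (n + Q) := be_nonneg (by omega)
    have b1 : be (k + Q - l) (n + Q) ≤ 1 := be_le_one (by omega) (by omega)
    rw [abs_mul, abs_of_nonneg b0]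
    calc be (k + Q - l) (n + Q) * |SS k (r - l) (n / 2 + 1) - DD g μ ν k (r - l)|
        ≤ 1 * (C * σ ^ (n / 2 + 1)) := by
          refine mul_le_mul b1 (hT _) (abs_nonneg _) zero_le_one
      _ = _ := one_mul _
  -- (f)
  have hTf : (fun n : ℕ => ∑ k ∈ range K, ∑ r ∈ range (Q + 1), ∑ l ∈ range (r + 1),
      ((r.choose l : ℝ) * p r * DD g μ ν k (r - l)) *
        (if K ≤ k + Q - l then be (k + Q - l) (n + Q) else 0)) =O[atTop]
      fun n : ℕ => ((n : ℝ) ^ K)⁻¹ := by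
    refine sum_O (range K) (fun k n => ∑ r ∈ range (Q + 1), ∑ l ∈ range (r + 1),
      ((r.choose l : ℝ) * p r * DD g μ ν k (r - l)) *
        (if K ≤ k + Q - l then be (k + Q - l) (n + Q) else 0)) fun k _ => ?_
    refine sum_O (range (Q + 1)) (fun r n => ∑ l ∈ range (r + 1),
      ((r.choose l : ℝ) * p r * DD g μ ν k (r - l)) *
        (if K ≤ k + Q - l then be (k + Q - l) (n + Q) else 0)) fun r _ => ?_
    refine sum_O (range (r + 1)) (fun l n => 
      ((r.choose l : ℝ) * p r * DD g μ ν k (r - l)) *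
        (if K ≤ k + Q - l then be (k + Q - l) (n + Q) else 0)) fun l hl => ?_
    refine const_O ((r.choose l : ℝ) * p r * DD g μ ν k (r - l)) (fun n =>
        (if K ≤ k + Q - l then be (k + Q - l) (n + Q) else 0)) ?_
    refine of_bd 1 ?_
    filter_upwards [eventually_ge_atTop (2 * (k + Q) + 1)] with n hn
    have hnp : (1 : ℝ) ≤ n := by exact_mod_cast (by omega : 1 ≤ n)
    have hnK : (0 : ℝ) < (n : ℝ) ^ K := by positivity
    by_cases hK : K ≤ k + Q - l
    · rw [if_pos hK]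
      have b0 : 0 ≤ be (k + Q - l) (n + Q) := be_nonneg (by omega)
      have b1 := be_le (k := k + Q - l) (n := n + Q) (by omega) (by omega)
      rw [abs_of_nonneg b0]
      have h1 : (n : ℝ) ^ K ≤ ((n + Q : ℕ) : ℝ) ^ (k + Q - l) := by
        calc (n : ℝ) ^ K ≤ (n : ℝ) ^ (k + Q - l) := pow_le_pow_right₀ hnp hK
          _ ≤ _ := by
            have : (n : ℝ) ≤ ((n + Q : ℕ) : ℝ) := by exact_mod_cast Nat.le_add_right n Q
            gcongr
      calc (n : ℝ) ^ K * be (k + Q - l) (n + Q)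
          ≤ (n : ℝ) ^ K * (((n + Q : ℕ) : ℝ) ^ (k + Q - l))⁻¹ := by gcongr
        _ ≤ (n : ℝ) ^ K * ((n : ℝ) ^ K)⁻¹ := by gcongr
        _ = 1 := mul_inv_cancel₀ hnK.ne'
    · rw [if_neg hK, abs_zero, mul_zero]
      exact zero_le_one
  -- the sum
  have hall := ((hTa.add hTb).add hTc).add (hTe.add hTf)
  refine hall.congr' ?_ (EventuallyEq.refl _ _)
  filter_upwards [eventually_ge_atTop (2 * K + 1)] with n hn
  have hn2 : n / 2 + 1 ≤ n + 1 := by omega
  -- splitting of the sum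
  have s1 : (∑ j ∈ range (n + 1), s (n - j) * g j * mm μ ν n j) =
      (∑ j ∈ range (n + 1), (s (n - j) - P (n - j)) * g j * mm μ ν n j) +
      (∑ j ∈ Ico (n / 2 + 1) (n + 1), P (n - j) * g j * mm μ ν n j) +
      (∑ j ∈ range (n / 2 + 1), P (n - j) * g j *
        ∑ k ∈ Ico K (j + 1), W ν (μ ^ 2) k j * be k n) +
      ∑ j ∈ range (n / 2 + 1), P (n - j) * g j * ∑ k ∈ range K, W ν (μ ^ 2) k j * be k n := by
    have e1 : (∑ j ∈ range (n + 1), s (n - j) * g j * mm μ ν n j) =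
        (∑ j ∈ range (n + 1), (s (n - j) - P (n - j)) * g j * mm μ ν n j) +
        ∑ j ∈ range (n + 1), P (n - j) * g j * mm μ ν n j := by
      rw [← sum_add_distrib]
      exact sum_congr rfl fun j _ => by ring
    have e2 : ∑ j ∈ range (n + 1), P (n - j) * g j * mm μ ν n j =
        (∑ j ∈ range (n / 2 + 1), P (n - j) * g j * mm μ ν n j) +
        ∑ j ∈ Ico (n / 2 + 1) (n + 1), P (n - j) * g j * mm μ ν n j :=
      (sum_range_add_sum_Ico _ hn2).symm
    have e3 : ∑ j ∈ range (n / 2 + 1), P (n - j) * g j * mm μ ν n j =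
        (∑ j ∈ range (n / 2 + 1), P (n - j) * g j * ∑ k ∈ range K, W ν (μ ^ 2) k j * be k n) +
        ∑ j ∈ range (n / 2 + 1), P (n - j) * g j *
          ∑ k ∈ Ico K (j + 1), W ν (μ ^ 2) k j * be k n := by
      rw [← sum_add_distrib]
      exact sum_congr rfl fun j _ => by rw [mm_split μ ν K n j, mul_add]
    rw [e1, e2, e3]
    ring
  have s2 : (∑ j ∈ range (n / 2 + 1), P (n - j) * g j *
      ∑ k ∈ range K, W ν (μ ^ 2) k j * be k n) / rf Q n =
      ∑ k ∈ range K, ∑ r ∈ range (Q + 1), ∑ l ∈ range (r + 1),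
        ((r.choose l : ℝ) * p r) * (be (k + Q - l) (n + Q) * SS k (r - l) (n / 2 + 1)) := by
    have e1 : ∀ j ∈ range (n / 2 + 1), P (n - j) * g j *
        (∑ k ∈ range K, W ν (μ ^ 2) k j * be k n) / rf Q n =
        ∑ k ∈ range K, ∑ r ∈ range (Q + 1), ∑ l ∈ range (r + 1),
        ((r.choose l : ℝ) * p r) * (be (k + Q - l) (n + Q) * (g j * dk μ ν k j *
          ∏ t ∈ range (r - l), (2 * ((k : ℝ) - j) + 2 * (t : ℝ)))) := by
      intro j hj
      have hj' := mem_range.1 hj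
      rw [mul_sum, sum_div]
      refine sum_congr rfl fun k hk => ?_
      have hk' := mem_range.1 hk
      rw [hP]
      simp only
      rw [sum_mul, sum_mul, sum_div]
      refine sum_congr rfl fun r hr => ?_
      have hr' := mem_range.1 hr
      have := main_id (r := r) (k := k) (j := j) (n := n) (Q := Q) (by omega) (by omega) (by omega)
      calc p r * rf r ((n - j : ℕ) : ℝ) * g j * (W ν (μ ^ 2) k j * be k n) / rf Q n
          = p r * (g j * W ν (μ ^ 2) k j) * (rf r ((n - j : ℕ) : ℝ) * be k n / rf Q (n : ℝ)) := by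
            ring
        _ = _ := by
            rw [this, mul_sum]
            refine sum_congr rfl fun l _ => ?_
            rw [dk_eq]
            ring
    rw [sum_div, sum_congr rfl e1, sum_comm]
    refine sum_congr rfl fun k _ => ?_
    rw [sum_comm]
    refine sum_congr rfl fun r _ => ?_
    rw [sum_comm]
    refine sum_congr rfl fun l _ => ?_
    rw [hSS]
    simp only
    rw [mul_sum, mul_sum]
  have s3 : ∑ k ∈ range K, ee p Q g μ ν k * be k (n + Q) =
      ∑ k ∈ range K, ∑ r ∈ range (Q + 1), ∑ l ∈ range (r + 1),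
        ((r.choose l : ℝ) * p r * DD g μ ν k (r - l)) *
          (if K ≤ k + Q - l then 0 else be (k + Q - l) (n + Q)) := by
    have e1 : ∑ k ∈ range K, ee p Q g μ ν k * be k (n + Q) =
        ∑ r ∈ range (Q + 1), ∑ l ∈ range (r + 1), ∑ k ∈ range K,
          (if Q ≤ k + l then (r.choose l : ℝ) * p r * DD g μ ν (k + l - Q) (r - l) else 0) *
            be k (n + Q) := by
      unfold ee
      simp_rw [sum_mul]
      rw [sum_comm]
      refine sum_congr rfl fun r _ => ?_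
      rw [sum_comm]
    have e2 : ∑ k ∈ range K, ∑ r ∈ range (Q + 1), ∑ l ∈ range (r + 1),
        ((r.choose l : ℝ) * p r * DD g μ ν k (r - l)) *
          (if K ≤ k + Q - l then 0 else be (k + Q - l) (n + Q)) =
        ∑ r ∈ range (Q + 1), ∑ l ∈ range (r + 1), ∑ k ∈ range K,
          ((r.choose l : ℝ) * p r * DD g μ ν k (r - l)) *
          (if K ≤ k + Q - l then 0 else be (k + Q - l) (n + Q)) := by
      rw [sum_comm]
      refine sum_congr rfl fun r _ => ?_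
      rw [sum_comm]
    rw [e1, e2]
    refine sum_congr rfl fun r hr => sum_congr rfl fun l hl => ?_
    have hl' : l ≤ Q := by
      have := mem_range.1 hr
      have := mem_range.1 hl
      omega
    -- shift by `Q - l`
    have e3 : ∑ k ∈ range K,
          (if Q ≤ k + l then (r.choose l : ℝ) * p r * DD g μ ν (k + l - Q) (r - l) else 0) *
            be k (n + Q) = ∑ k ∈ (range K).filter (fun k => Q - l ≤ k),
          (r.choose l : ℝ) * p r * DD g μ ν (k + l - Q) (r - l) * be k (n + Q) := by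
      rw [sum_filter]
      refine sum_congr rfl fun k _ => ?_
      by_cases hc : Q ≤ k + l
      · rw [if_pos hc, if_pos (by omega)]
      · rw [if_neg hc, if_neg (by omega), zero_mul]
    have e4 : ∑ k ∈ range K, ((r.choose l : ℝ) * p r * DD g μ ν k (r - l)) *
          (if K ≤ k + Q - l then 0 else be (k + Q - l) (n + Q)) =
        ∑ k ∈ (range K).filter (fun k => k + Q - l < K),
          (r.choose l : ℝ) * p r * DD g μ ν k (r - l) * be (k + Q - l) (n + Q) := by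
      rw [sum_filter]
      refine sum_congr rfl fun k _ => ?_
      by_cases hc : K ≤ k + Q - l
      · rw [if_pos hc, if_neg (by omega), mul_zero]
      · rw [if_neg hc, if_pos (by omega)]
    rw [e3, e4]
    refine sum_bij' (fun k _ => k + l - Q) (fun k _ => k + Q - l) ?_ ?_ ?_ ?_ ?_
    · intro k hk
      simp only [mem_filter, mem_range] at hk ⊢
      omega
    · intro k hk
      simp only [mem_filter, mem_range] at hk ⊢
      omega
    · intro k hk
      simp only [mem_filter, mem_range] at hk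
      omega
    · intro k hk
      simp only [mem_filter, mem_range] at hk
      omega
    · intro k hk
      simp only [mem_filter, mem_range] at hk
      have : k + l - Q + Q - l = k := by omega
      rw [this]
  have s4 : (∑ k ∈ range K, ∑ r ∈ range (Q + 1), ∑ l ∈ range (r + 1),
        ((r.choose l : ℝ) * p r) * (be (k + Q - l) (n + Q) * SS k (r - l) (n / 2 + 1))) -
      ∑ k ∈ range K, ∑ r ∈ range (Q + 1), ∑ l ∈ range (r + 1),
        ((r.choose l : ℝ) * p r * DD g μ ν k (r - l)) *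
          (if K ≤ k + Q - l then 0 else be (k + Q - l) (n + Q)) =
      (∑ k ∈ range K, ∑ r ∈ range (Q + 1), ∑ l ∈ range (r + 1),
      ((r.choose l : ℝ) * p r) * (be (k + Q - l) (n + Q) *
        (SS k (r - l) (n / 2 + 1) - DD g μ ν k (r - l)))) +
      ∑ k ∈ range K, ∑ r ∈ range (Q + 1), ∑ l ∈ range (r + 1),
      ((r.choose l : ℝ) * p r * DD g μ ν k (r - l)) *
        (if K ≤ k + Q - l then be (k + Q - l) (n + Q) else 0) := by
    rw [← sum_sub_distrib, ← sum_add_distrib]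
    refine sum_congr rfl fun k _ => ?_
    rw [← sum_sub_distrib, ← sum_add_distrib]
    refine sum_congr rfl fun r _ => ?_
    rw [← sum_sub_distrib, ← sum_add_distrib]
    refine sum_congr rfl fun l _ => ?_
    split_ifs <;> ring
  rw [s3, s1, add_div, add_div, add_div, s2, add_sub_assoc, s4]

end Pool.Agent.Zk52.LN
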