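import Pool.Agent.Zk52.LN.ExG

set_option autoImplicit false
set_option linter.all false

namespace Pool.Agent.Zk52.LN

open Finset Filter Topology Asymptotics Pool.Agent.Zk79.LN

/-- exponentially small functions -/
lemma of_expJ (J : ℕ → ℕ) (hJ : ∀ n, n ≤ 3 * J n + 3) {f : ℕ → ℝ} (K : ℕ) {C σ : ℝ} (hC : 0 ≤ C)
    (hσ : 0 ≤ σ) (hσ1 : σ < 1) (h : ∀ᶠ n : ℕ in atTop, |f n| ≤ C * σ ^ (J n + 1)) :
    f =O[atTop] fun n : ℕ => ((n : ℝ) ^ K)⁻¹ := by
  obtain ⟨C1, hC1, h1⟩ := pow_exp_bdd K hσ hσ1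
  refine of_bd (3 ^ K * C1 * C) ?_
  filter_upwards [h] with n hn
  have h2 : (n : ℝ) ≤ 3 * ((J n + 1 : ℕ) : ℝ) := by
    have := hJ n
    exact_mod_cast (by omega : n ≤ 3 * (J n + 1))
  calc (n : ℝ) ^ K * |f n| ≤ (3 * ((J n + 1 : ℕ) : ℝ)) ^ K * (C * σ ^ (J n + 1)) := by gcongr
    _ = 3 ^ K * (((J n + 1 : ℕ) : ℝ) ^ K * σ ^ (J n + 1)) * C := by rw [mul_pow]; ring
    _ ≤ 3 ^ K * C1 * C := by gcongr; exact h1 _

/-- B, first half of the sum -/
theorem expansionH {s g p : ℕ → ℝ} {Q : ℕ} {A θ μ ν : ℝ} (hA : 0 ≤ A) (hθ : 0 ≤ θ) (hθ1 : θ < 1)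
    (hg0 : ∀ i, 0 ≤ g i)
    (hs : ∀ i : ℕ, |s i - ∑ r ∈ range (Q + 1), p r * rf r i| ≤ A * θ ^ i)
    (hg : ∀ ρ : ℝ, 0 ≤ ρ → ρ < 1 → Summable fun j => g j * ρ ^ j)
    (hμ : 0 < μ) (hν : 0 < ν) (h : μ ^ 2 + ν ^ 2 ≤ 1) (J : ℕ → ℕ) (hJ : ∀ n, n ≤ 3 * J n + 3)
    (hJ' : ∀ n, 2 * J n ≤ n) (K : ℕ) :
    (fun n : ℕ => (∑ j ∈ range (J n + 1), s (n - j) * g j * mm μ ν n j) / rf Q n -
        ∑ k ∈ range K, ee p Q g μ ν k * be k (n + Q)) =O[atTop] fun n : ℕ => ((n : ℝ) ^ K)⁻¹ := by
  have hμ2 : 0 < μ ^ 2 := by positivity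
  have hν2 : 0 < ν ^ 2 := by positivity
  have hμ21 : μ ^ 2 < 1 := by linarith
  have hh' : μ ^ 2 + 2 / 3 * ν ^ 2 < 1 := by linarith
  have hh'0 : 0 < μ ^ 2 + 2 / 3 * ν ^ 2 := by positivity
  set P : ℕ → ℝ := fun i => ∑ r ∈ range (Q + 1), p r * rf r i with hP
  set P0 := ∑ r ∈ range (Q + 1), |p r| with hP0
  have hP00 : 0 ≤ P0 := sum_nonneg fun r _ => abs_nonneg _
  have hPb : ∀ i n : ℕ, i ≤ n → |P i| ≤ P0 * rf Q n := by
    intro i n hin
    calc |P i| ≤ ∑ r ∈ range (Q + 1), |p r * rf r i| := abs_sum_le_sum_abs _ _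
      _ ≤ ∑ r ∈ range (Q + 1), |p r| * rf Q n := by
          refine sum_le_sum fun r hr => ?_
          rw [abs_mul, abs_of_pos (rf_pos r i)]
          refine mul_le_mul_of_nonneg_left (rf_le ?_ hin) (abs_nonneg _)
          have := mem_range.1 hr
          omega
      _ = P0 * rf Q n := by rw [hP0, sum_mul]
  -- (a)
  have hTa : (fun n : ℕ => (∑ j ∈ range (J n + 1), (s (n - j) - P (n - j)) * g j * mm μ ν n j) /
      rf Q n) =O[atTop] fun n : ℕ => ((n : ℝ) ^ K)⁻¹ := by
    set σ := max θ (1 / 2) with hσ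
    have hσ0 : 0 < σ := lt_of_lt_of_le (by norm_num) (le_max_right _ _)
    have hσ1 : σ < 1 := max_lt hθ1 (by norm_num)
    set ρ := μ ^ 2 + 2 / 3 * ν ^ 2 with hρ
    have hsumρ := hg ρ hh'0.le hh'
    set G := ∑' j, g j * ρ ^ j with hG
    have hG0 : 0 ≤ G := tsum_nonneg fun j => mul_nonneg (hg0 j) (by positivity)
    refine of_expJ J hJ K (C := A * G / σ) (σ := σ) (by positivity) hσ0.le hσ1 ?_
    filter_upwards [eventually_ge_atTop 1] with n hn
    rw [abs_div, abs_of_pos (rf_pos Q n)]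
    have hrf1 : (1 : ℝ) ≤ rf Q n := by
      have := rf_le (r := 0) (Q := Q) (i := n) (n := n) (Nat.zero_le _) le_rfl
      simpa [rf] using this
    have h1 : |∑ j ∈ range (J n + 1), (s (n - j) - P (n - j)) * g j * mm μ ν n j| ≤
        A * G * σ ^ J n := by
      calc |∑ j ∈ range (J n + 1), (s (n - j) - P (n - j)) * g j * mm μ ν n j|
          ≤ ∑ j ∈ range (J n + 1), |(s (n - j) - P (n - j)) * g j * mm μ ν n j| :=
            abs_sum_le_sum_abs _ _
        _ ≤ ∑ j ∈ range (J n + 1), A * σ ^ J n * (g j * ρ ^ j) := by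
            refine sum_le_sum fun j hj => ?_
            have hj' := mem_range.1 hj
            have hJn := hJ' n
            have hjn : j ≤ n := by omega
            rw [abs_mul, abs_mul, abs_of_nonneg (hg0 j), abs_of_nonneg (mm_nonneg hjn)]
            have e2 : |s (n - j) - P (n - j)| ≤ A * σ ^ J n := by
              refine (hs (n - j)).trans ?_
              have h3 : θ ^ (n - j) ≤ σ ^ (n - j) := pow_le_pow_left₀ hθ (le_max_left _ _) _
              have h4 : σ ^ (n - j) ≤ σ ^ J n := pow_le_pow_of_le_one hσ0.le hσ1.le (by omega)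
              exact mul_le_mul_of_nonneg_left (h3.trans h4) hA
            have e3 : mm μ ν n j ≤ ρ ^ j := by
              have h3 := R_bound (μ := μ) (ν := ν) (K := 0) hn (show 2 * j ≤ n by omega)
              rw [← range_eq_Ico, ← mm_eq] at h3
              simpa [W, be] using h3
            calc |s (n - j) - P (n - j)| * g j * mm μ ν n j
                ≤ (A * σ ^ J n) * g j * ρ ^ j := by
                  have := hg0 j
                  have := mm_nonneg (μ := μ) (ν := ν) hjn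
                  gcongr
              _ = A * σ ^ J n * (g j * ρ ^ j) := by ring
        _ = A * σ ^ J n * ∑ j ∈ range (J n + 1), (g j * ρ ^ j) := by rw [mul_sum]
        _ ≤ A * σ ^ J n * G := by
            refine mul_le_mul_of_nonneg_left ?_ (by positivity)
            exact hsumρ.sum_le_tsum _ fun j _ => mul_nonneg (hg0 j) (by positivity)
        _ = A * G * σ ^ J n := by ring
    calc |∑ j ∈ range (J n + 1), (s (n - j) - P (n - j)) * g j * mm μ ν n j| / rf Q n
        ≤ |∑ j ∈ range (J n + 1), (s (n - j) - P (n - j)) * g j * mm μ ν n j| :=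
          div_le_self (abs_nonneg _) hrf1
      _ ≤ A * G * σ ^ J n := h1
      _ = A * G / σ * σ ^ (J n + 1) := by rw [pow_succ]; field_simp
  -- (c)
  have hTc : (fun n : ℕ => (∑ j ∈ range (J n + 1), P (n - j) * g j *
      ∑ k ∈ Ico K (j + 1), W ν (μ ^ 2) k j * be k n) /
      rf Q n) =O[atTop] fun n : ℕ => ((n : ℝ) ^ K)⁻¹ := by
    have hsumh : Summable fun j => g j * W ν (μ ^ 2 + 2 / 3 * ν ^ 2) K j := by
      obtain ⟨C, ρ, hC, hρ0, hρ1, hw⟩ := W_bound ν hh'0 hh' K
      exact (tail hg0 hg (fun j => W_nonneg hh'0.le K j) hC hρ0 hρ1 hw).1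
    set Dh := ∑' j, g j * W ν (μ ^ 2 + 2 / 3 * ν ^ 2) K j with hDh
    have hDh0 : 0 ≤ Dh := tsum_nonneg fun j => mul_nonneg (hg0 j) (W_nonneg hh'0.le K j)
    refine of_bd (P0 * Dh) ?_
    filter_upwards [eventually_ge_atTop (2 * K + 1)] with n hn
    have hn1 : 1 ≤ n := by omega
    have hnp : (0 : ℝ) < n := by exact_mod_cast hn1
    have hnK : (0 : ℝ) < (n : ℝ) ^ K := by positivity
    have b0 : 0 ≤ be K n := be_nonneg (by omega)
    have b1 : (n : ℝ) ^ K * be K n ≤ 1 := by
      have := be_le (k := K) (n := n) (by omega) hn1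
      calc (n : ℝ) ^ K * be K n ≤ (n : ℝ) ^ K * ((n : ℝ) ^ K)⁻¹ := by gcongr
        _ = 1 := mul_inv_cancel₀ hnK.ne'
    have h1 : |∑ j ∈ range (J n + 1), P (n - j) * g j *
        ∑ k ∈ Ico K (j + 1), W ν (μ ^ 2) k j * be k n| ≤ (P0 * Dh * be K n) * rf Q n := by
      calc |∑ j ∈ range (J n + 1), P (n - j) * g j *
          ∑ k ∈ Ico K (j + 1), W ν (μ ^ 2) k j * be k n|
          ≤ ∑ j ∈ range (J n + 1), |P (n - j) * g j *
            ∑ k ∈ Ico K (j + 1), W ν (μ ^ 2) k j * be k n| := abs_sum_le_sum_abs _ _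
        _ ≤ ∑ j ∈ range (J n + 1), (P0 * rf Q n * be K n) *
              (g j * W ν (μ ^ 2 + 2 / 3 * ν ^ 2) K j) := by
            refine sum_le_sum fun j hj => ?_
            have hj' := mem_range.1 hj
            have hjn : 2 * j ≤ n := by have := hJ' n; omega
            have r0 : 0 ≤ ∑ k ∈ Ico K (j + 1), W ν (μ ^ 2) k j * be k n := by
              refine sum_nonneg fun k hk => ?_
              have := mem_Ico.1 hk
              exact mul_nonneg (W_nonneg hμ2.le k j) (be_nonneg (by omega))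
            rw [abs_mul, abs_mul, abs_of_nonneg (hg0 j), abs_of_nonneg r0]
            have e1 := hPb (n - j) n (Nat.sub_le _ _)
            have e3 := hg0 j
            calc |P (n - j)| * g j * ∑ k ∈ Ico K (j + 1), W ν (μ ^ 2) k j * be k n
                ≤ (P0 * rf Q n) * g j * (W ν (μ ^ 2 + 2 / 3 * ν ^ 2) K j * be K n) := by
                  refine mul_le_mul (mul_le_mul_of_nonneg_right e1 e3) (R_bound hn1 hjn) r0 ?_
                  exact mul_nonneg (mul_nonneg hP00 (rf_pos Q n).le) e3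
              _ = _ := by ring
        _ = (P0 * rf Q n * be K n) * ∑ j ∈ range (J n + 1),
              (g j * W ν (μ ^ 2 + 2 / 3 * ν ^ 2) K j) := by rw [mul_sum]
        _ ≤ (P0 * rf Q n * be K n) * Dh := by
            refine mul_le_mul_of_nonneg_left ?_ ?_
            · exact hsumh.sum_le_tsum _ fun j _ => mul_nonneg (hg0 j) (W_nonneg hh'0.le K j)
            · exact mul_nonneg (mul_nonneg hP00 (rf_pos Q n).le) b0
        _ = _ := by ring
    rw [abs_div, abs_of_pos (rf_pos Q n)]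
    calc (n : ℝ) ^ K * (|∑ j ∈ range (J n + 1), P (n - j) * g j *
          ∑ k ∈ Ico K (j + 1), W ν (μ ^ 2) k j * be k n| / rf Q n)
        ≤ (n : ℝ) ^ K * (P0 * Dh * be K n) := by
          refine mul_le_mul_of_nonneg_left ?_ hnK.le
          rw [div_le_iff₀ (rf_pos Q n)]
          exact h1
      _ = P0 * Dh * ((n : ℝ) ^ K * be K n) := by ring
      _ ≤ P0 * Dh := mul_le_of_le_one_right (by positivity) b1
  -- (e)
  set SS : ℕ → ℕ → ℕ → ℝ := fun k i N =>
    ∑ j ∈ range N, g j * dk μ ν k j * ∏ t ∈ range i, (2 * ((k : ℝ) - j) + 2 * (t : ℝ)) with hSS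
  have hTe : (fun n : ℕ => ∑ k ∈ range K, ∑ r ∈ range (Q + 1), ∑ l ∈ range (r + 1),
      ((r.choose l : ℝ) * p r) * (be (k + Q - l) (n + Q) *
        (SS k (r - l) (J n + 1) - DD g μ ν k (r - l)))) =O[atTop]
      fun n : ℕ => ((n : ℝ) ^ K)⁻¹ := by
    refine sum_O (range K) (fun k n => ∑ r ∈ range (Q + 1), ∑ l ∈ range (r + 1),
      ((r.choose l : ℝ) * p r) * (be (k + Q - l) (n + Q) *
        (SS k (r - l) (J n + 1) - DD g μ ν k (r - l)))) fun k _ => ?_
    refine sum_O (range (Q + 1)) (fun r n => ∑ l ∈ range (r + 1),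
      ((r.choose l : ℝ) * p r) * (be (k + Q - l) (n + Q) *
        (SS k (r - l) (J n + 1) - DD g μ ν k (r - l)))) fun r _ => ?_
    refine sum_O (range (r + 1)) (fun l n => 
      ((r.choose l : ℝ) * p r) * (be (k + Q - l) (n + Q) *
        (SS k (r - l) (J n + 1) - DD g μ ν k (r - l)))) fun l hl => ?_
    refine const_O ((r.choose l : ℝ) * p r) (fun n => be (k + Q - l) (n + Q) *
        (SS k (r - l) (J n + 1) - DD g μ ν k (r - l))) ?_
    obtain ⟨C, σ, hC, hσ, hσ1, hT⟩ := DD_tail hg0 hg hμ hμ21 (ν := ν) k (r - l)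
    refine of_expJ J hJ K hC hσ hσ1 ?_
    filter_upwards [eventually_ge_atTop (2 * (k + Q) + 1)] with n hn
    have b0 : 0 ≤ be (k + Q - l) (n + Q) := be_nonneg (by omega)
    have b1 : be (k + Q - l) (n + Q) ≤ 1 := be_le_one (by omega) (by omega)
    rw [abs_mul, abs_of_nonneg b0]
    calc be (k + Q - l) (n + Q) * |SS k (r - l) (J n + 1) - DD g μ ν k (r - l)|
        ≤ 1 * (C * σ ^ (J n + 1)) := by
          refine mul_le_mul b1 (hT _) (abs_nonneg _) zero_le_one
      _ = _ := one_mul _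
  -- (f)
  have hTf : (fun n : ℕ => ∑ k ∈ range K, ∑ r ∈ range (Q + 1), ∑ l ∈ range (r + 1),
      ((r.choose l : ℝ) * p r * DD g μ ν k (r - l)) *
        (if K ≤ k + Q - l then be (k + Q - l) (n + Q) else 0)) =O[atTop]
      fun n : ℕ => ((n : ℝ) ^ K)⁻¹ := by
    refine sum_O (range K) (fun k n => ∑ r ∈ range (Q + 1), ∑ l ∈ range (r + 1),
      ((r.choose l : ℝ) * p r * DD g μ ν k (r - l)) *
        (if K ≤ k + Q - l then be (k + Q - l) (n + Q) else 0)) fun k _ => ?_
    refine sum_O (range (Q + 1)) (fun r n => ∑ l ∈ range (r + 1),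
      ((r.choose l : ℝ) * p r * DD g μ ν k (r - l)) *
        (if K ≤ k + Q - l then be (k + Q - l) (n + Q) else 0)) fun r _ => ?_
    refine sum_O (range (r + 1)) (fun l n => 
      ((r.choose l : ℝ) * p r * DD g μ ν k (r - l)) *
        (if K ≤ k + Q - l then be (k + Q - l) (n + Q) else 0)) fun l hl => ?_
    refine const_O ((r.choose l : ℝ) * p r * DD g μ ν k (r - l)) (fun n =>
        (if K ≤ k + Q - l then be (k + Q - l) (n + Q) else 0)) ?_
    refine of_bd 1 ?_
    filter_upwards [eventually_ge_atTop (2 * (k + Q) + 1)] with n hn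
    have hnp : (1 : ℝ) ≤ n := by exact_mod_cast (by omega : 1 ≤ n)
    have hnK : (0 : ℝ) < (n : ℝ) ^ K := by positivity
    by_cases hK : K ≤ k + Q - l
    · rw [if_pos hK]
      have b0 : 0 ≤ be (k + Q - l) (n + Q) := be_nonneg (by omega)
      have b1 := be_le (k := k + Q - l) (n := n + Q) (by omega) (by omega)
      rw [abs_of_nonneg b0]
      have h1 : (n : ℝ) ^ K ≤ ((n + Q : ℕ) : ℝ) ^ (k + Q - l) := by
        calc (n : ℝ) ^ K ≤ (n : ℝ) ^ (k + Q - l) := pow_le_pow_right₀ hnp hK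
          _ ≤ _ := by
            have : (n : ℝ) ≤ ((n + Q : ℕ) : ℝ) := by exact_mod_cast Nat.le_add_right n Q
            gcongr
      calc (n : ℝ) ^ K * be (k + Q - l) (n + Q)
          ≤ (n : ℝ) ^ K * (((n + Q : ℕ) : ℝ) ^ (k + Q - l))⁻¹ := by gcongr
        _ ≤ (n : ℝ) ^ K * ((n : ℝ) ^ K)⁻¹ := by gcongr
        _ = 1 := mul_inv_cancel₀ hnK.ne'
    · rw [if_neg hK, abs_zero, mul_zero]
      exact zero_le_one
  -- the sum
  have hall := (hTa.add hTc).add (hTe.add hTf)
  refine hall.congr' ?_ (EventuallyEq.refl _ _)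
  filter_upwards [eventually_ge_atTop (2 * K + 1)] with n hn
  have hJn := hJ' n
  -- splitting of the sum
  have s1 : (∑ j ∈ range (J n + 1), s (n - j) * g j * mm μ ν n j) =
      (∑ j ∈ range (J n + 1), (s (n - j) - P (n - j)) * g j * mm μ ν n j) +
      (∑ j ∈ range (J n + 1), P (n - j) * g j *
        ∑ k ∈ Ico K (j + 1), W ν (μ ^ 2) k j * be k n) +
      ∑ j ∈ range (J n + 1), P (n - j) * g j * ∑ k ∈ range K, W ν (μ ^ 2) k j * be k n := by
    rw [← sum_add_distrib, ← sum_add_distrib]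
    refine sum_congr rfl fun j _ => ?_
    rw [mm_split μ ν K n j]
    ring
  have s2 : (∑ j ∈ range (J n + 1), P (n - j) * g j *
      ∑ k ∈ range K, W ν (μ ^ 2) k j * be k n) / rf Q n =
      ∑ k ∈ range K, ∑ r ∈ range (Q + 1), ∑ l ∈ range (r + 1),
        ((r.choose l : ℝ) * p r) * (be (k + Q - l) (n + Q) * SS k (r - l) (J n + 1)) := by
    have e1 : ∀ j ∈ range (J n + 1), P (n - j) * g j *
        (∑ k ∈ range K, W ν (μ ^ 2) k j * be k n) / rf Q n =
        ∑ k ∈ range K, ∑ r ∈ range (Q + 1), ∑ l ∈ range (r + 1),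
        ((r.choose l : ℝ) * p r) * (be (k + Q - l) (n + Q) * (g j * dk μ ν k j *
          ∏ t ∈ range (r - l), (2 * ((k : ℝ) - j) + 2 * (t : ℝ)))) := by
      intro j hj
      have hj' := mem_range.1 hj
      rw [mul_sum, sum_div]
      refine sum_congr rfl fun k hk => ?_
      have hk' := mem_range.1 hk
      rw [hP]
      simp only
      rw [sum_mul, sum_mul, sum_div]
      refine sum_congr rfl fun r hr => ?_
      have hr' := mem_range.1 hr
      have := main_id (r := r) (k := k) (j := j) (n := n) (Q := Q) (by omega) (by omega) (by omega)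
      calc p r * rf r ((n - j : ℕ) : ℝ) * g j * (W ν (μ ^ 2) k j * be k n) / rf Q n
          = p r * (g j * W ν (μ ^ 2) k j) * (rf r ((n - j : ℕ) : ℝ) * be k n / rf Q (n : ℝ)) := by
            ring
        _ = _ := by
            rw [this, mul_sum]
            refine sum_congr rfl fun l _ => ?_
            rw [dk_eq]
            ring
    rw [sum_div, sum_congr rfl e1, sum_comm]
    refine sum_congr rfl fun k _ => ?_
    rw [sum_comm]
    refine sum_congr rfl fun r _ => ?_
    rw [sum_comm]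
    refine sum_congr rfl fun l _ => ?_
    rw [hSS]
    simp only
    rw [mul_sum, mul_sum]
  have s3 : ∑ k ∈ range K, ee p Q g μ ν k * be k (n + Q) =
      ∑ k ∈ range K, ∑ r ∈ range (Q + 1), ∑ l ∈ range (r + 1),
        ((r.choose l : ℝ) * p r * DD g μ ν k (r - l)) *
          (if K ≤ k + Q - l then 0 else be (k + Q - l) (n + Q)) := by
    have e1 : ∑ k ∈ range K, ee p Q g μ ν k * be k (n + Q) =
        ∑ r ∈ range (Q + 1), ∑ l ∈ range (r + 1), ∑ k ∈ range K,
          (if Q ≤ k + l then (r.choose l : ℝ) * p r * DD g μ ν (k + l - Q) (r - l) else 0) *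
            be k (n + Q) := by
      unfold ee
      simp_rw [sum_mul]
      rw [sum_comm]
      refine sum_congr rfl fun r _ => ?_
      rw [sum_comm]
    have e2 : ∑ k ∈ range K, ∑ r ∈ range (Q + 1), ∑ l ∈ range (r + 1),
        ((r.choose l : ℝ) * p r * DD g μ ν k (r - l)) *
          (if K ≤ k + Q - l then 0 else be (k + Q - l) (n + Q)) =
        ∑ r ∈ range (Q + 1), ∑ l ∈ range (r + 1), ∑ k ∈ range K,
          ((r.choose l : ℝ) * p r * DD g μ ν k (r - l)) *
          (if K ≤ k + Q - l then 0 else be (k + Q - l) (n + Q)) := by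
      rw [sum_comm]
      refine sum_congr rfl fun r _ => ?_
      rw [sum_comm]
    rw [e1, e2]
    refine sum_congr rfl fun r hr => sum_congr rfl fun l hl => ?_
    have hl' : l ≤ Q := by
      have := mem_range.1 hr
      have := mem_range.1 hl
      omega
    -- shift by `Q - l`
    have e3 : ∑ k ∈ range K,
          (if Q ≤ k + l then (r.choose l : ℝ) * p r * DD g μ ν (k + l - Q) (r - l) else 0) *
            be k (n + Q) = ∑ k ∈ (range K).filter (fun k => Q - l ≤ k),
          (r.choose l : ℝ) * p r * DD g μ ν (k + l - Q) (r - l) * be k (n + Q) := by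
      rw [sum_filter]
      refine sum_congr rfl fun k _ => ?_
      by_cases hc : Q ≤ k + l
      · rw [if_pos hc, if_pos (by omega)]
      · rw [if_neg hc, if_neg (by omega), zero_mul]
    have e4 : ∑ k ∈ range K, ((r.choose l : ℝ) * p r * DD g μ ν k (r - l)) *
          (if K ≤ k + Q - l then 0 else be (k + Q - l) (n + Q)) =
        ∑ k ∈ (range K).filter (fun k => k + Q - l < K),
          (r.choose l : ℝ) * p r * DD g μ ν k (r - l) * be (k + Q - l) (n + Q) := by
      rw [sum_filter]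
      refine sum_congr rfl fun k _ => ?_
      by_cases hc : K ≤ k + Q - l
      · rw [if_pos hc, if_neg (by omega), mul_zero]
      · rw [if_neg hc, if_pos (by omega)]
    rw [e3, e4]
    refine sum_bij' (fun k _ => k + l - Q) (fun k _ => k + Q - l) ?_ ?_ ?_ ?_ ?_
    · intro k hk
      simp only [mem_filter, mem_range] at hk ⊢
      omega
    · intro k hk
      simp only [mem_filter, mem_range] at hk ⊢
      omega
    · intro k hk
      simp only [mem_filter, mem_range] at hk
      omega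
    · intro k hk
      simp only [mem_filter, mem_range] at hk
      omega
    · intro k hk
      simp only [mem_filter, mem_range] at hk
      have : k + l - Q + Q - l = k := by omega
      rw [this]
  have s4 : (∑ k ∈ range K, ∑ r ∈ range (Q + 1), ∑ l ∈ range (r + 1),
        ((r.choose l : ℝ) * p r) * (be (k + Q - l) (n + Q) * SS k (r - l) (J n + 1))) -
      ∑ k ∈ range K, ∑ r ∈ range (Q + 1), ∑ l ∈ range (r + 1),
        ((r.choose l : ℝ) * p r * DD g μ ν k (r - l)) *
          (if K ≤ k + Q - l then 0 else be (k + Q - l) (n + Q)) =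
      (∑ k ∈ range K, ∑ r ∈ range (Q + 1), ∑ l ∈ range (r + 1),
      ((r.choose l : ℝ) * p r) * (be (k + Q - l) (n + Q) *
        (SS k (r - l) (J n + 1) - DD g μ ν k (r - l)))) +
      ∑ k ∈ range K, ∑ r ∈ range (Q + 1), ∑ l ∈ range (r + 1),
      ((r.choose l : ℝ) * p r * DD g μ ν k (r - l)) *
        (if K ≤ k + Q - l then be (k + Q - l) (n + Q) else 0) := by
    rw [← sum_sub_distrib, ← sum_add_distrib]
    refine sum_congr rfl fun k _ => ?_
    rw [← sum_sub_distrib, ← sum_add_distrib]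
    refine sum_congr rfl fun r _ => ?_
    rw [← sum_sub_distrib, ← sum_add_distrib]
    refine sum_congr rfl fun l _ => ?_
    split_ifs <;> ring
  rw [s3, s1, add_div, add_div, s2, add_sub_assoc, s4]

end Pool.Agent.Zk52.LN
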