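import Pool.Agent.Zk79.LN.Tf

/-! The products of sines at the natural numbers. -/

set_option autoImplicit false
set_option linter.all false

namespace Pool.Agent.Zk52.LN

open Finset Pool.Agent.Zk79.LN

lemma sum_shift {g : ℕ → ℝ} {P : ℕ} (hg : ∀ j, g (j + P) = g j) (k : ℕ) :
    ∑ j ∈ range P, g (j + k) = ∑ j ∈ range P, g j := by
  induction k with
  | zero => simp
  | succ k ih =>
    have h1 : ∑ j ∈ range (P + 1), g (j + k) = ∑ j ∈ range P, g (j + k) + g (P + k) :=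
      sum_range_succ _ _
    have h2 : ∑ j ∈ range (P + 1), g (j + k) = ∑ j ∈ range P, g (j + 1 + k) + g (0 + k) :=
      sum_range_succ' _ _
    have h3 : g (P + k) = g (0 + k) := by
      rw [add_comm P k, hg, zero_add]
    have h4 : ∑ j ∈ range P, g (j + (k + 1)) = ∑ j ∈ range P, g (j + 1 + k) :=
      sum_congr rfl fun j _ => by rw [add_assoc, add_comm k 1]
    rw [h4]
    linarith

lemma sin_per {b t : ℕ} (hb : b ∣ t) (hb0 : b ≠ 0) (x : ℕ) :
    Real.sin (Real.pi * ((x + 2 * t : ℕ) : ℝ) / b) = Real.sin (Real.pi * (x : ℝ) / b) := by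
  obtain ⟨c, rfl⟩ := hb
  have hb' : (b : ℝ) ≠ 0 := by exact_mod_cast hb0
  have e : Real.pi * ((x + 2 * (b * c) : ℕ) : ℝ) / b =
      Real.pi * (x : ℝ) / b + c * (2 * Real.pi) := by
    push_cast
    field_simp
  rw [e, Real.sin_add_nat_mul_two_pi]

lemma sp_per {A : Finset ℕ} (hA : ∀ a ∈ A, 2 ≤ a) {t : ℕ} (ht : ∀ a ∈ A, a ∣ t) (x : ℕ) :
    sp A ((x + 2 * t : ℕ) : ℝ) = sp A (x : ℝ) := by
  unfold sp
  refine prod_congr rfl fun a ha => ?_
  exact sin_per (ht a ha) (by have := hA a ha; omega) x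

lemma sin_sum {a c : ℕ} (ha : a ≠ 0) (hc : ¬ a ∣ c) (x : ℝ) :
    ∑ j ∈ range a, Real.sin (x + 2 * Real.pi * c * j / a) = 0 := by
  have hz := Complex.isPrimitiveRoot_exp a ha
  set z := Complex.exp (2 * Real.pi * Complex.I / a) with hzd
  have h1 : z ^ c ≠ 1 := fun h => hc ((hz.pow_eq_one_iff_dvd c).1 h)
  have h2 : (z ^ c) ^ a = 1 := by
    rw [← pow_mul, mul_comm, pow_mul, hz.pow_eq_one, one_pow]
  have h3 : ∑ j ∈ range a, (z ^ c) ^ j = 0 := by
    have := mul_geom_sum (z ^ c) a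
    rw [h2, sub_self] at this
    exact (mul_eq_zero.1 this).resolve_left (sub_ne_zero.2 h1)
  have h4 : ∀ j : ℕ, Real.sin (x + 2 * Real.pi * c * j / a) =
      (Complex.exp (x * Complex.I) * (z ^ c) ^ j).im := by
    intro j
    rw [← pow_mul, hzd, ← Complex.exp_nat_mul, ← Complex.exp_add]
    have e : (x : ℂ) * Complex.I + ((c * j : ℕ) : ℂ) * (2 * Real.pi * Complex.I / a) =
        ((x + 2 * Real.pi * c * j / a : ℝ) : ℂ) * Complex.I := by
      push_cast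
      ring
    rw [e, Complex.exp_ofReal_mul_I_im]
  rw [sum_congr rfl fun j _ => h4 j, ← Complex.im_sum, ← mul_sum, h3, mul_zero, Complex.zero_im]

/-- moving one factor -/
lemma sp_move {A : Finset ℕ} (hA : ∀ a ∈ A, 2 ≤ a)
    (cA : ∀ a ∈ A, ∀ b ∈ A, a ≠ b → a.Coprime b) {a n : ℕ} (ha : a ∈ A) (hn : ¬ a ∣ n) (x : ℕ) :
    ∑ i ∈ range a, sp A ((x + 2 * (n * (∏ b ∈ A.erase a, b) * i) : ℕ) : ℝ) = 0 := by
  set L := ∏ b ∈ A.erase a, b with hL
  have ha0 : a ≠ 0 := by have := hA a ha; omega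
  have hco : a.Coprime L := by
    rw [hL]
    refine Nat.Coprime.prod_right fun b hb => ?_
    exact cA a ha b (mem_of_mem_erase hb) (ne_of_mem_erase hb).symm
  have h1 : ¬ a ∣ n * L := fun h => hn (hco.dvd_of_dvd_mul_right h)
  have h2 : ∀ i : ℕ, sp A ((x + 2 * (n * L * i) : ℕ) : ℝ) =
      Real.sin (Real.pi * x / a + 2 * Real.pi * ((n * L : ℕ) : ℝ) * i / a) *
        ∏ b ∈ A.erase a, Real.sin (Real.pi * x / b) := by
    intro i
    unfold sp
    rw [← mul_prod_erase _ _ ha]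
    congr 1
    · congr 1
      push_cast
      ring
    · refine prod_congr rfl fun b hb => ?_
      refine sin_per ?_ ?_ x
      · have : b ∣ L := dvd_prod_of_mem _ hb
        exact (this.mul_left n).mul_right i
      · have := hA b (mem_of_mem_erase hb)
        omega
  rw [sum_congr rfl fun i _ => h2 i, ← sum_mul, sin_sum ha0 h1, zero_mul]

lemma avg {A : Finset ℕ} (hA : ∀ a ∈ A, 2 ≤ a)
    (cA : ∀ a ∈ A, ∀ b ∈ A, a ≠ b → a.Coprime b) {P : ℕ} (hP : ∏ a ∈ A, a ∣ P) (n m : ℕ) :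
    ∑ j ∈ range P, sp A ((m + 2 * (n * j) : ℕ) : ℝ) =
      if ∏ a ∈ A, a ∣ n then P * sp A (m : ℝ) else 0 := by
  by_cases h : ∏ a ∈ A, a ∣ n
  · rw [if_pos h]
    have : ∀ j ∈ range P, sp A ((m + 2 * (n * j) : ℕ) : ℝ) = sp A (m : ℝ) := by
      intro j _
      refine sp_per hA (fun a ha => ?_) m
      exact ((dvd_prod_of_mem (fun a => a) ha).trans h).mul_right j
    rw [sum_congr rfl this, sum_const, card_range, nsmul_eq_mul]
  · rw [if_neg h]
    obtain ⟨a, ha, hn⟩ : ∃ a ∈ A, ¬ a ∣ n := by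
      by_contra hcon
      push Not at hcon
      refine h (Finset.prod_dvd_of_isRelPrime (fun x hx y hy hxy => ?_) hcon)
      exact Nat.coprime_iff_isRelPrime.1 (cA x hx y hy hxy)
    have ha0 : (a : ℝ) ≠ 0 := by
      have := hA a ha
      exact_mod_cast (by omega : a ≠ 0)
    set L := ∏ b ∈ A.erase a, b with hL
    set F : ℕ → ℝ := fun x => ∑ j ∈ range P, sp A ((x + 2 * (n * j) : ℕ) : ℝ) with hF
    have h1 : ∀ i : ℕ, F (m + 2 * (n * L * i)) = F m := by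
      intro i
      have h2 : F (m + 2 * (n * L * i)) =
          ∑ j ∈ range P, sp A ((m + 2 * (n * (j + L * i)) : ℕ) : ℝ) := by
        rw [hF]
        refine sum_congr rfl fun j _ => ?_
        congr 2
        ring
      rw [h2]
      refine sum_shift (g := fun j => sp A ((m + 2 * (n * j) : ℕ) : ℝ)) (fun j => ?_) (L * i)
      have e : m + 2 * (n * (j + P)) = (m + 2 * (n * j)) + 2 * (n * P) := by ring
      rw [e]
      refine sp_per hA (fun b hb => ?_) _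
      exact ((dvd_prod_of_mem (fun a => a) hb).trans hP).mul_left n
    have h3 : ∑ i ∈ range a, F (m + 2 * (n * L * i)) = 0 := by
      rw [hF]
      simp only
      rw [sum_comm]
      refine sum_eq_zero fun j _ => ?_
      have := sp_move hA cA ha hn (m + 2 * (n * j))
      rw [← this]
      refine sum_congr rfl fun i _ => ?_
      congr 2
      ring
    rw [sum_congr rfl fun i _ => h1 i, sum_const, card_range, nsmul_eq_mul] at h3
    exact (mul_eq_zero.1 h3).resolve_left ha0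

lemma half {A B A' B' : Finset ℕ} (hA : ∀ a ∈ A, 2 ≤ a) (hB : ∀ a ∈ B, 2 ≤ a)
    (hA' : ∀ a ∈ A', 2 ≤ a) (hB' : ∀ a ∈ B', 2 ≤ a)
    (cA : ∀ a ∈ A, ∀ b ∈ A, a ≠ b → a.Coprime b) (cB : ∀ a ∈ B, ∀ b ∈ B, a ≠ b → a.Coprime b)
    (cA' : ∀ a ∈ A', ∀ b ∈ A', a ≠ b → a.Coprime b)
    (cB' : ∀ a ∈ B', ∀ b ∈ B', a ≠ b → a.Coprime b) {α β α' β' : ℝ} (hα : 0 < α) (hβ : 0 < β)
    (hα' : 0 < α') (hβ' : 0 < β') (hne : ∏ a ∈ A, a < ∏ b ∈ B, b)
    (hprod : (∏ a ∈ A, a) * ∏ b ∈ B, b = (∏ a ∈ A', a) * ∏ b ∈ B', b)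
    (h : ∀ m : ℕ, α * sp A m + β * sp B m = α' * sp A' m + β' * sp B' m) :
    (A = A' ∧ B = B') ∨ (A = B' ∧ B = A') := by
  have pos : ∀ C : Finset ℕ, (∀ a ∈ C, 2 ≤ a) → 0 < ∏ a ∈ C, a := fun C hC =>
    prod_pos fun a ha => by have := hC a ha; omega
  have pA := pos A hA
  have pB := pos B hB
  have pA' := pos A' hA'
  have pB' := pos B' hB'
  set a := ∏ a ∈ A, a with ha
  set b := ∏ b ∈ B, b with hb
  set a' := ∏ a ∈ A', a with ha'
  set b' := ∏ b ∈ B', b with hb'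
  have hP0 : ((a * b : ℕ) : ℝ) ≠ 0 := by exact_mod_cast (Nat.mul_pos pA pB).ne'
  have key : ∀ m : ℕ, α * sp A m = α' * (if a' ∣ a then sp A' m else 0) +
      β' * (if b' ∣ a then sp B' m else 0) := by
    intro m
    have h1 : ∑ j ∈ range (a * b), (α * sp A ((m + 2 * (a * j) : ℕ) : ℝ) +
        β * sp B ((m + 2 * (a * j) : ℕ) : ℝ)) =
        ∑ j ∈ range (a * b), (α' * sp A' ((m + 2 * (a * j) : ℕ) : ℝ) +
        β' * sp B' ((m + 2 * (a * j) : ℕ) : ℝ)) := sum_congr rfl fun j _ => h _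
    rw [sum_add_distrib, sum_add_distrib, ← mul_sum, ← mul_sum, ← mul_sum, ← mul_sum,
      avg hA cA (dvd_mul_right a b), avg hB cB (dvd_mul_left b a),
      avg hA' cA' (P := a * b) (hprod ▸ dvd_mul_right a' b'),
      avg hB' cB' (P := a * b) (hprod ▸ dvd_mul_left b' a'), if_pos dvd_rfl,
      if_neg (Nat.not_dvd_of_pos_of_lt pA hne)] at h1
    apply mul_left_cancel₀ hP0
    rw [← ha', ← hb'] at h1
    by_cases h2 : a' ∣ a <;> by_cases h3 : b' ∣ a
    · rw [if_pos h2, if_pos h3] at h1 ⊢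
      linear_combination h1
    · rw [if_pos h2, if_neg h3] at h1 ⊢
      linear_combination h1
    · rw [if_neg h2, if_pos h3] at h1 ⊢
      linear_combination h1
    · rw [if_neg h2, if_neg h3] at h1 ⊢
      linear_combination h1
  have p1 : ∀ C : Finset ℕ, (∀ a ∈ C, 2 ≤ a) → 0 < sp C ((1 : ℕ) : ℝ) := fun C hC => by
    rw [Nat.cast_one]; exact sp_one_pos hC
  have fin : ∀ (C C' : Finset ℕ) (γ γ' : ℝ), (∀ a ∈ C, 2 ≤ a) → (∀ a ∈ C', 2 ≤ a) →
      (∀ a ∈ C, ∀ b ∈ C, a ≠ b → a.Coprime b) → (∀ a ∈ C', ∀ b ∈ C', a ≠ b → a.Coprime b) →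
      0 < γ → 0 < γ' → (∀ m : ℕ, γ * sp C m = γ' * sp C' m) → C = C' ∧ γ = γ' := by
    intro C C' γ γ' hC hC' cC cC' hγ hγ' hm
    have e : C = C' := by
      refine set_eq hC hC' cC cC' fun m => ?_
      have := hm m
      constructor
      · intro h0
        rw [h0, mul_zero] at this
        exact (mul_eq_zero.1 this.symm).resolve_left hγ'.ne'
      · intro h0
        rw [h0, mul_zero] at this
        exact (mul_eq_zero.1 this).resolve_left hγ.ne'
    refine ⟨e, ?_⟩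
    have := hm 1
    rw [← e] at this
    exact mul_right_cancel₀ (p1 C hC).ne' this
  by_cases h2 : a' ∣ a <;> by_cases h3 : b' ∣ a
  · exfalso
    have e1 := Nat.le_of_dvd pA h2
    have e2 := Nat.le_of_dvd pA h3
    have e3 : a' * b' ≤ a * a := Nat.mul_le_mul e1 e2
    have e4 : a * a < a * b := Nat.mul_lt_mul_of_pos_left hne pA
    omega
  · left
    simp only [if_pos h2, if_neg h3, mul_zero, add_zero] at key
    obtain ⟨e, e'⟩ := fin A A' α α' hA hA' cA cA' hα hα' key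
    refine ⟨e, (fin B B' β β' hB hB' cB cB' hβ hβ' fun m => ?_).1⟩
    have := h m
    rw [e, e'] at this
    linarith
  · right
    simp only [if_neg h2, if_pos h3, mul_zero, zero_add] at key
    obtain ⟨e, e'⟩ := fin A B' α β' hA hB' cA cB' hα hβ' key
    refine ⟨e, (fin B A' β α' hB hA' cB cA' hβ hα' fun m => ?_).1⟩
    have := h m
    rw [e, e'] at this
    linarith
  · exfalso
    have := key 1
    simp only [if_neg h2, if_neg h3, mul_zero, add_zero] at this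
    have h4 := p1 A hA
    have h5 := mul_pos hα h4
    linarith

/-- F: the products of sines at the natural numbers -/
theorem four_sets {A B A' B' : Finset ℕ} (hA : ∀ a ∈ A, 2 ≤ a) (hB : ∀ a ∈ B, 2 ≤ a)
    (hA' : ∀ a ∈ A', 2 ≤ a) (hB' : ∀ a ∈ B', 2 ≤ a)
    (cA : ∀ a ∈ A, ∀ b ∈ A, a ≠ b → a.Coprime b) (cB : ∀ a ∈ B, ∀ b ∈ B, a ≠ b → a.Coprime b)
    (cA' : ∀ a ∈ A', ∀ b ∈ A', a ≠ b → a.Coprime b)
    (cB' : ∀ a ∈ B', ∀ b ∈ B', a ≠ b → a.Coprime b) {α β α' β' : ℝ} (hα : 0 < α) (hβ : 0 < β)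
    (hα' : 0 < α') (hβ' : 0 < β') (hne : ∏ a ∈ A, a ≠ ∏ b ∈ B, b)
    (hprod : (∏ a ∈ A, a) * ∏ b ∈ B, b = (∏ a ∈ A', a) * ∏ b ∈ B', b)
    (h : ∀ m : ℕ, α * sp A m + β * sp B m = α' * sp A' m + β' * sp B' m) :
    (A = A' ∧ B = B') ∨ (A = B' ∧ B = A') := by
  rcases Nat.lt_or_gt_of_ne hne with h1 | h1
  · exact half hA hB hA' hB' cA cB cA' cB' hα hβ hα' hβ' h1 hprod h
  · have := half hB hA hA' hB' cB cA cA' cB' hβ hα hα' hβ' h1 (by rw [mul_comm, hprod])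
      fun m => by rw [add_comm]; exact h m
    rcases this with ⟨e1, e2⟩ | ⟨e1, e2⟩
    · exact Or.inr ⟨e2, e1⟩
    · exact Or.inl ⟨e2, e1⟩

end Pool.Agent.Zk52.LN
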